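import Pool.Agent.Q100.OA.St

/-! # Outer billiards about algebraic arcs -/

open Complex Set Filter Topology Polynomial

open scoped Polynomial.Bivariate ContDiff

namespace Q100.OA

open H719FX H738CZ

theorem ogd : StOGD := by
  obtain ⟨-, -, -, -, -, hLAW, hINI, hCPX, hTRL, hDSC⟩ := cz
  exact tOGD hINI hCPX hLAW

theorem id_deriv (z : ℂ) : deriv (fun x : ℂ => x) z = 1 := deriv_id z

theorem Wr_swap (P Q : ℂ → ℂ) (z : ℂ) : Wr P Q z = -Wr Q P z := by
  unfold Wr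
  ring

/-- start at a point of an analytic arc with non horizontal tangent -/
theorem start_arc {f : ℝ → ℝ} {x0 x1 : ℝ} (h01 : x0 < x1)
    (hf : AnalyticOnNhd ℝ f (Ioo x0 x1)) (hf2 : ∀ x ∈ Ioo x0 x1, 0 < deriv (deriv f) x)
    {K : ℝ → ℝ → ℝ} {U : Set (ℝ × ℝ)} (hU : IsOpen U) (hUc : IsPreconnected U)
    (hfU : ∀ x ∈ Ioo x0 x1, (x, f x) ∈ U) (hK : AnalyticOnNhd ℝ (Function.uncurry K) U)
    (hinv : ∀ x ∈ Ioo x0 x1, ∃ ε > 0, ∀ δ : ℝ, 0 < δ → δ < ε →
      K (x + δ) (f x + deriv f x * δ) = K (x - δ) (f x - deriv f x * δ))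
    (hnc : ¬ ∃ c, ∀ z ∈ U, K z.1 z.2 = c) :
    ∃ (x : ℝ) (F : ℂ → ℂ) (r : ℝ), x ∈ Ioo x0 x1 ∧ 0 < r ∧
      DifferentiableOn ℂ F (Metric.ball (x : ℂ) r) ∧
      (∀ t : ℝ, (t : ℂ) ∈ Metric.ball (x : ℂ) r → F t = f t) ∧
      (∀ t ∈ Metric.ball (x : ℂ) r, deriv (fun z : ℂ => z) t ≠ 0 ∧ deriv F t ≠ 0 ∧
        Wr (fun z => z) F t ≠ 0) ∧ GO (fun z => z) F x := by
  have hd1 : ∀ x ∈ Ioo x0 x1, HasDerivAt f (deriv f x) x := fun x hx =>
    (hf x hx).differentiableAt.hasDerivAt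
  have hf' : AnalyticOnNhd ℝ (deriv f) (Ioo x0 x1) := hf.deriv
  have hd2 : ∀ x ∈ Ioo x0 x1, HasDerivAt (deriv f) (deriv (deriv f) x) x := fun x hx =>
    (hf' x hx).differentiableAt.hasDerivAt
  -- a point with non zero slope
  obtain ⟨v, hv, hfv⟩ : ∃ v ∈ Ioo x0 x1, deriv f v ≠ 0 := by
    by_contra hcon
    push Not at hcon
    have hm : (x0 + x1) / 2 ∈ Ioo x0 x1 := ⟨by linarith, by linarith⟩
    have h1 : deriv f =ᶠ[𝓝 ((x0 + x1) / 2)] fun _ => 0 := by
      filter_upwards [isOpen_Ioo.mem_nhds hm] with x hx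
      exact hcon x hx
    have h2 := h1.deriv_eq
    rw [deriv_const] at h2
    exact (hf2 _ hm).ne' h2
  have hva : AnalyticAt ℝ (fun s => ((f s : ℝ) : ℂ)) v :=
    (Complex.ofRealCLM.analyticAt _).comp (hf v hv)
  obtain ⟨F, r, hr, hF, hFf⟩ := tAEX _ v hva
  have hopen : IsOpen (Metric.ball (v : ℂ) r) := Metric.isOpen_ball
  have hvr : (v : ℂ) ∈ Metric.ball (v : ℂ) r := Metric.mem_ball_self hr
  have hdF := hF.deriv hopen
  have hdF2 := hdF.deriv hopen
  -- a small interval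
  obtain ⟨α, β, hαβ, hsub⟩ : ∃ α β : ℝ, v ∈ Ioo α β ∧ ∀ s ∈ Ioo α β, s ∈ Ioo x0 x1 ∧
      (s : ℂ) ∈ Metric.ball (v : ℂ) r ∧ 0 < deriv f s * deriv f v := by
    have h1 : ∀ᶠ s in 𝓝 v, 0 < deriv f s * deriv f v := by
      have hc : ContinuousAt (fun s => deriv f s * deriv f v) v :=
        (hd2 v hv).continuousAt.mul continuousAt_const
      exact hc.eventually (lt_mem_nhds (mul_self_pos.2 hfv))
    have h2 : ∀ᶠ s : ℝ in 𝓝 v, (s : ℂ) ∈ Metric.ball (v : ℂ) r :=
      Complex.continuous_ofReal.continuousAt.preimage_mem_nhds (hopen.mem_nhds hvr)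
    have h3 : ∀ᶠ s in 𝓝 v, s ∈ Ioo x0 x1 := isOpen_Ioo.mem_nhds hv
    obtain ⟨ε, hε, h⟩ := Metric.eventually_nhds_iff_ball.1 (h3.and (h2.and h1))
    refine ⟨v - ε, v + ε, ⟨by linarith, by linarith⟩, fun s hs => ?_⟩
    have := h s (by rw [Real.ball_eq_Ioo]; exact hs)
    exact ⟨this.1, this.2.1, this.2.2⟩
  -- derivatives of `F` at real points
  have hnear : ∀ s ∈ Ioo α β, ∀ᶠ u : ℝ in 𝓝 s, u ∈ Ioo α β := fun s hs => isOpen_Ioo.mem_nhds hs
  have hF1 : ∀ s ∈ Ioo α β, deriv F s = ((deriv f s : ℝ) : ℂ) := by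
    intro s hs
    have d1 : HasDerivAt (fun u : ℝ => F u) ((deriv f s : ℝ) : ℂ) s := by
      refine ((hd1 s (hsub s hs).1).ofReal_comp).congr_of_eventuallyEq ?_
      filter_upwards [hnear s hs] with u hu
      exact hFf u (hsub u hu).2.1
    have d2 : HasDerivAt (fun u : ℝ => F u) (deriv F s) s :=
      ((hF.differentiableAt (hopen.mem_nhds (hsub s hs).2.1)).hasDerivAt).comp_ofReal
    exact d2.unique d1
  have hF2 : ∀ s ∈ Ioo α β, deriv (deriv F) s = ((deriv (deriv f) s : ℝ) : ℂ) := by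
    intro s hs
    have d1 : HasDerivAt (fun u : ℝ => deriv F u) ((deriv (deriv f) s : ℝ) : ℂ) s := by
      refine ((hd2 s (hsub s hs).1).ofReal_comp).congr_of_eventuallyEq ?_
      filter_upwards [hnear s hs] with u hu
      exact hF1 u hu
    have d2 : HasDerivAt (fun u : ℝ => deriv F u) (deriv (deriv F) s) s :=
      ((hdF.differentiableAt (hopen.mem_nhds (hsub s hs).2.1)).hasDerivAt).comp_ofReal
    exact d2.unique d1
  have hW : ∀ s ∈ Ioo α β, Wr (fun z => z) F s = ((deriv (deriv f) s : ℝ) : ℂ) := by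
    intro s hs
    rw [AAY_Wr, hF2 s hs]
  -- good in the coordinate `x`
  have hG1 : GoodO (fun z => z) F v := by
    refine OST_gl ogd tSGN (fun z => z) F v α β hαβ (fun s => s) f (fun _ => 1) (deriv f)
      (deriv (deriv f)) (fun s _ => hasDerivAt_id s) ?_ (fun s hs => hd2 s (hsub s hs).1)
      continuousAt_const (fun _ _ => one_ne_zero) (Or.inl ?_) K U hU hUc
      (fun s hs => hfU s (hsub s hs).1) hK (fun s hs => hinv s (hsub s hs).1) hnc
      analyticAt_id (hF.analyticAt (hopen.mem_nhds hvr)) ?_ ?_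
    · intro s hs
      rw [mul_one]
      exact hd1 s (hsub s hs).1
    · intro s hs
      rw [inv_one, mul_one]
      exact hf2 s (hsub s hs).1
    · intro s hs
      rw [Complex.ofReal_one]
      exact hasDerivAt_id' (s : ℂ)
    · intro s hs
      rw [hW s hs]
      push_cast
      ring
  -- good in the coordinate `y`
  have hne : ∀ s ∈ Ioo α β, deriv f s ≠ 0 := by
    intro s hs h0
    have := (hsub s hs).2.2
    rw [h0, zero_mul] at this
    exact lt_irrefl _ this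
  have hG2 : GoodO F (fun z => z) v := by
    set e : ℝ × ℝ ≃ₜ ℝ × ℝ := Homeomorph.prodComm ℝ ℝ with he
    have hee : ∀ z : ℝ × ℝ, e z = (z.2, z.1) := fun z => rfl
    refine OST_gl ogd tSGN F (fun z => z) v α β hαβ f (fun s => s) (deriv f)
      (fun s => (deriv f s)⁻¹) (fun s => -deriv (deriv f) s / deriv f s ^ 2)
      (fun s hs => hd1 s (hsub s hs).1) ?_ ?_ (hd2 v hv).continuousAt hne ?_
      (fun a b => K b a) (e ⁻¹' U) (hU.preimage e.continuous)
      (e.isPreconnected_preimage.mpr hUc) ?_ ?_ ?_ ?_ (hF.analyticAt (hopen.mem_nhds hvr))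
      analyticAt_id ?_ ?_
    · intro s hs
      rw [inv_mul_cancel₀ (hne s hs)]
      exact hasDerivAt_id s
    · intro s hs
      exact (hd2 s (hsub s hs).1).inv (hne s hs)
    · rcases lt_or_gt_of_ne hfv with hlt | hgt
      · left
        intro s hs
        have h1 : deriv f s < 0 := by
          by_contra hcon
          push Not at hcon
          have := (hsub s hs).2.2
          nlinarith [mul_nonneg hcon (neg_nonneg.2 hlt.le)]
        have h2 := hf2 s (hsub s hs).1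
        have h3 : 0 < deriv f s ^ 2 := by
          have := mul_pos_of_neg_of_neg h1 h1
          nlinarith
        have h4 : -deriv (deriv f) s / deriv f s ^ 2 < 0 := div_neg_of_neg_of_pos (by linarith) h3
        exact mul_pos_of_neg_of_neg h4 (inv_lt_zero.2 h1)
      · right
        intro s hs
        have h1 : 0 < deriv f s := by
          by_contra hcon
          push Not at hcon
          have := (hsub s hs).2.2
          nlinarith [mul_nonneg (neg_nonneg.2 hcon) hgt.le]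
        have h2 := hf2 s (hsub s hs).1
        have h3 : 0 < deriv f s ^ 2 := by positivity
        have h4 : -deriv (deriv f) s / deriv f s ^ 2 < 0 := div_neg_of_neg_of_pos (by linarith) h3
        exact mul_neg_of_neg_of_pos h4 (inv_pos.2 h1)
    · intro s hs
      rw [mem_preimage, hee]
      exact hfU s (hsub s hs).1
    · intro z hz
      rw [mem_preimage, hee] at hz
      have h2 : AnalyticAt ℝ (fun p : ℝ × ℝ => (p.2, p.1)) z :=
        analyticAt_snd.prod analyticAt_fst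
      have h3 : AnalyticAt ℝ (Function.uncurry K) ((fun p : ℝ × ℝ => (p.2, p.1)) z) := hK _ hz
      exact AnalyticAt.comp (g := Function.uncurry K)
        (f := fun p : ℝ × ℝ => (p.2, p.1)) (x := z) h3 h2
    · intro s hs
      obtain ⟨ε, hε, h⟩ := hinv s (hsub s hs).1
      have hs0 := hne s hs
      refine ⟨ε * |deriv f s|, mul_pos hε (abs_pos.2 hs0), fun δ h1 h2 => ?_⟩
      show K (s + (deriv f s)⁻¹ * δ) (f s + δ) = K (s - (deriv f s)⁻¹ * δ) (f s - δ)
      rcases lt_or_gt_of_ne hs0 with hlt | hgt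
      · have h3 := h (-(deriv f s)⁻¹ * δ) (mul_pos (neg_pos.2 (inv_lt_zero.2 hlt)) h1) (by
          rw [abs_of_neg hlt] at h2
          have h5 : 0 < -(deriv f s)⁻¹ := neg_pos.2 (inv_lt_zero.2 hlt)
          have h4 := mul_lt_mul_of_pos_left h2 h5
          have h6 : -(deriv f s)⁻¹ * (ε * -deriv f s) = ε := by
            field_simp
          rwa [h6] at h4)
        have e1 : s + -(deriv f s)⁻¹ * δ = s - (deriv f s)⁻¹ * δ := by ring
        have e2 : f s + deriv f s * (-(deriv f s)⁻¹ * δ) = f s - δ := by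
          field_simp
          ring
        have e3 : s - -(deriv f s)⁻¹ * δ = s + (deriv f s)⁻¹ * δ := by ring
        have e4 : f s - deriv f s * (-(deriv f s)⁻¹ * δ) = f s + δ := by
          field_simp
          ring
        rw [e1, e2, e3, e4] at h3
        exact h3.symm
      · have h3 := h ((deriv f s)⁻¹ * δ) (mul_pos (inv_pos.2 hgt) h1) (by
          rw [abs_of_pos hgt] at h2
          have h4 := mul_lt_mul_of_pos_left h2 (inv_pos.2 hgt)
          have h6 : (deriv f s)⁻¹ * (ε * deriv f s) = ε := by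
            field_simp
          rwa [h6] at h4)
        have e2 : f s + deriv f s * ((deriv f s)⁻¹ * δ) = f s + δ := by
          field_simp
        have e4 : f s - deriv f s * ((deriv f s)⁻¹ * δ) = f s - δ := by
          field_simp
        rw [e2, e4] at h3
        exact h3
    · rintro ⟨c, hc⟩
      apply hnc
      refine ⟨c, fun z hz => ?_⟩
      exact hc (z.2, z.1) (by rw [mem_preimage, hee]; exact hz)
    · intro s hs
      rw [← hF1 s hs]
      exact (hF.differentiableAt (hopen.mem_nhds (hsub s hs).2.1)).hasDerivAt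
    · intro s hs
      rw [Wr_swap, hW s hs]
      have h1 : ((deriv f s : ℝ) : ℂ) ≠ 0 := by exact_mod_cast hne s hs
      push_cast
      field_simp
  have hG : GO (fun z => z) F v := ⟨hG1, hG2⟩
  obtain ⟨g1, g2, g3⟩ := hG.ne
  have hc : ContinuousOn (fun t => deriv F t * deriv (deriv F) t) (Metric.ball (v : ℂ) r) :=
    (hdF.mul hdF2).continuousOn
  have hUU : IsOpen {t ∈ Metric.ball (v : ℂ) r |
      (fun t => deriv F t * deriv (deriv F) t) t ≠ 0} :=
    hc.isOpen_inter_preimage hopen isOpen_compl_singleton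
  obtain ⟨δ, hδ, hs⟩ := Metric.isOpen_iff.1 hUU (v : ℂ)
    ⟨hvr, mul_ne_zero g2 (by rw [← AAY_Wr]; exact g3)⟩
  have hs' : Metric.ball (v : ℂ) δ ⊆ Metric.ball (v : ℂ) r := fun t ht => (hs ht).1
  refine ⟨v, F, δ, hv, hδ, hF.mono hs', fun t ht => hFf t (hs' ht), ?_, hG⟩
  intro t ht
  have h := (hs ht).2
  simp only [ne_eq, mul_eq_zero, not_or] at h
  refine ⟨?_, h.1, ?_⟩
  · rw [id_deriv]
    exact one_ne_zero
  · rw [AAY_Wr]
    exact h.2

/-- a real function satisfying a complex quadratic relation satisfies a real one -/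
theorem real_quad {f : ℝ → ℝ} {S : Set ℝ} (q0 q1 q2 q3 q4 q5 : ℂ)
    (hq : ¬ (q0 = 0 ∧ q1 = 0 ∧ q2 = 0 ∧ q3 = 0 ∧ q4 = 0 ∧ q5 = 0))
    (h : ∀ x ∈ S, q0 * (x : ℂ) ^ 2 + q1 * x * (f x : ℂ) + q2 * (f x : ℂ) ^ 2 + q3 * x +
      q4 * (f x : ℂ) + q5 = 0) :
    ∃ a b c d e g : ℝ, ¬ (a = 0 ∧ b = 0 ∧ c = 0 ∧ d = 0 ∧ e = 0 ∧ g = 0) ∧
      ∀ x ∈ S, a * x ^ 2 + b * x * f x + c * f x ^ 2 + d * x + e * f x + g = 0 := by
  by_cases hre : q0.re = 0 ∧ q1.re = 0 ∧ q2.re = 0 ∧ q3.re = 0 ∧ q4.re = 0 ∧ q5.re = 0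
  · refine ⟨q0.im, q1.im, q2.im, q3.im, q4.im, q5.im, ?_, fun x hx => ?_⟩
    · rintro ⟨h0, h1, h2, h3, h4, h5⟩
      exact hq ⟨Complex.ext hre.1 h0, Complex.ext hre.2.1 h1, Complex.ext hre.2.2.1 h2,
        Complex.ext hre.2.2.2.1 h3, Complex.ext hre.2.2.2.2.1 h4, Complex.ext hre.2.2.2.2.2 h5⟩
    · have h1 := congrArg Complex.im (h x hx)
      simp only [← Complex.ofReal_pow, Complex.add_im, Complex.mul_im, Complex.ofReal_re,
        Complex.ofReal_im, Complex.mul_re, mul_zero, zero_add, sub_zero, Complex.zero_im,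
        add_zero] at h1
      linarith
  · refine ⟨q0.re, q1.re, q2.re, q3.re, q4.re, q5.re, hre, fun x hx => ?_⟩
    have h1 := congrArg Complex.re (h x hx)
    simp only [← Complex.ofReal_pow, Complex.add_re, Complex.mul_im, Complex.ofReal_re,
      Complex.ofReal_im, Complex.mul_re, mul_zero, zero_add, sub_zero, Complex.zero_re,
      add_zero] at h1
    linarith

/-- outer billiards about algebraic arcs -/
theorem main_arc {f : ℝ → ℝ} {x0 x1 : ℝ} (h01 : x0 < x1)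
    (hf : AnalyticOnNhd ℝ f (Ioo x0 x1)) (hf2 : ∀ x ∈ Ioo x0 x1, 0 < deriv (deriv f) x)
    (A : ℂ[X][Y]) (hA : A ≠ 0) (hAf : ∀ x ∈ Ioo x0 x1, A.evalEval (x : ℂ) (f x : ℂ) = 0)
    (hno : ¬ IAs A)
    {K : ℝ → ℝ → ℝ} {U : Set (ℝ × ℝ)} (hU : IsOpen U) (hUc : IsPreconnected U)
    (hfU : ∀ x ∈ Ioo x0 x1, (x, f x) ∈ U) (hK : AnalyticOnNhd ℝ (Function.uncurry K) U)
    (hinv : ∀ x ∈ Ioo x0 x1, ∃ ε > 0, ∀ δ : ℝ, 0 < δ → δ < ε →
      K (x + δ) (f x + deriv f x * δ) = K (x - δ) (f x - deriv f x * δ))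
    (hnc : ¬ ∃ c, ∀ z ∈ U, K z.1 z.2 = c) :
    ∃ a b c d e g : ℝ, ¬ (a = 0 ∧ b = 0 ∧ c = 0 ∧ d = 0 ∧ e = 0 ∧ g = 0) ∧
      ∀ x ∈ Ioo x0 x1, a * x ^ 2 + b * x * f x + c * f x ^ 2 + d * x + e * f x + g = 0 := by
  obtain ⟨v, F, r, hv, hr, hF, hFf, hne, hG⟩ := start_arc h01 hf hf2 hU hUc hfU hK hinv hnc
  have hopen : IsOpen (Metric.ball (v : ℂ) r) := Metric.isOpen_ball
  have hvr : (v : ℂ) ∈ Metric.ball (v : ℂ) r := Metric.mem_ball_self hr
  have hballR : ∀ᶠ t : ℝ in 𝓝 v, (t : ℂ) ∈ Metric.ball (v : ℂ) r :=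
    Complex.continuous_ofReal.continuousAt.preimage_mem_nhds (hopen.mem_nhds hvr)
  have hIoo : ∀ᶠ t : ℝ in 𝓝 v, t ∈ Ioo x0 x1 := isOpen_Ioo.mem_nhds hv
  have hid : DifferentiableOn ℂ (fun z : ℂ => z) (Metric.ball (v : ℂ) r) := differentiableOn_id
  have hAZW : ∀ t ∈ Metric.ball (v : ℂ) r, A.evalEval t (F t) = 0 := by
    have h1 := (AAY_diff A hid hF).analyticOnNhd hopen
    have h2 := h1.eqOn_zero_of_preconnected_of_frequently_eq_zero
      (convex_ball (v : ℂ) r).isPreconnected hvr (AAY_freq (by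
        filter_upwards [hballR, hIoo] with t ht ht2
        rw [hFf t ht]
        exact hAf t ht2))
    exact fun t ht => h2 ht
  obtain ⟨q0, q1, q2, q3, q4, q5, hq, hqe⟩ :=
    core A hA hno (fun z => z) F v r hr hid hF hne hAZW hG
  obtain ⟨a, b, c, d, e, g, hn, hr'⟩ := real_quad (f := f)
    (S := {x : ℝ | x ∈ Ioo x0 x1 ∧ (x : ℂ) ∈ Metric.ball (v : ℂ) r}) q0 q1 q2 q3 q4 q5 hq
    (fun x hx => by rw [← hFf x hx.2]; exact hqe x hx.2)
  refine ⟨a, b, c, d, e, g, hn, fun x hx => ?_⟩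
  have hidr : AnalyticOnNhd ℝ (fun x : ℝ => x) (Ioo x0 x1) := fun x _ => analyticAt_id
  have hana : AnalyticOnNhd ℝ (fun x => a * x ^ 2 + b * x * f x + c * f x ^ 2 + d * x + e * f x + g)
      (Ioo x0 x1) :=
    (((((analyticOnNhd_const.mul (hidr.pow 2)).add ((analyticOnNhd_const.mul hidr).mul hf)).add
      (analyticOnNhd_const.mul (hf.pow 2))).add (analyticOnNhd_const.mul hidr)).add
      (analyticOnNhd_const.mul hf)).add analyticOnNhd_const
  exact hana.eqOn_zero_of_preconnected_of_eventuallyEq_zero isPreconnected_Ioo hv (by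
    filter_upwards [hballR, hIoo] with t ht ht2
    exact hr' t ⟨ht2, ht⟩) hx

end Q100.OA
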