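import Pool.Agent.Q100.OA.Pb
import Pool.Agent.H719R4.FZ.ABD

/-! # Uniform bound of the affine curvature near a point or infinity -/

open Complex Set Filter Topology Polynomial

open scoped Polynomial.Bivariate

namespace Q100.OA

open H719FX H738CZ

/-- The curve `A(z, w) = 0` has an inflectional asymptote: there are a line and points of the curve
going to infinity with distance to the line `o(1/R)`, `R` the distance to the origin. -/
def IAs (A : ℂ[X][Y]) : Prop :=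
  ∃ α β γ : ℂ, (α ≠ 0 ∨ β ≠ 0) ∧ ∃ u v : ℕ → ℂ, (∀ n, A.evalEval (u n) (v n) = 0) ∧
    Tendsto (fun n => ‖u n‖ + ‖v n‖) atTop atTop ∧
    Tendsto (fun n => ‖α * u n + β * v n + γ‖ * (‖u n‖ + ‖v n‖)) atTop (𝓝 0)

theorem ias_of {A : ℂ[X][Y]} {Z W : ℂ → ℂ} {t0 : ℂ} (h : InfA Z W t0)
    (hA : ∀ᶠ t in 𝓝[≠] t0, A.evalEval (Z t) (W t) = 0) : IAs A := by
  obtain ⟨α, β, γ, h0, h1, h2⟩ := h
  obtain ⟨x, hx⟩ := Filter.exists_seq_tendsto (𝓝[≠] t0)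
  obtain ⟨N, hN⟩ := Filter.eventually_atTop.1 (hx.eventually hA)
  refine ⟨α, β, γ, h0, fun n => Z (x (n + N)), fun n => W (x (n + N)), fun n => ?_, ?_, ?_⟩
  · exact hN _ (by omega)
  · exact (h1.comp hx).comp (tendsto_add_atTop_nat N)
  · exact (h2.comp hx).comp (tendsto_add_atTop_nat N)

/-- the bound at one place -/
theorem bd_place (hAME : StAME) (hAMI : StAMI) (hALO : StALO) (A A0 : ℂ[X][Y]) (B : Set ℂ)
    (hAC : ACurve A B) (hA0 : ∀ z ∉ B, ∀ w, A.evalEval z w = 0 → A0.evalEval z w = 0)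
    (hno : ¬ IAs A0) (q : ℂ → ℂ) (ε : ℝ) (hε : 0 < ε) (hq0 : MeromorphicAt q 0)
    (hqd : DifferentiableOn ℂ q (PD ε 1)) (hq : ∀ t ∈ PD ε 1, deriv q t ≠ 0 ∧ q t ∉ B)
    (N : ℕ) (hN : 1 ≤ N) (W : ℂ → ℂ) (hW : DifferentiableOn ℂ W (PD ε N))
    (hAW : ∀ t ∈ PD ε N, A.evalEval (q (t ^ N)) (W t) = 0) :
    ∃ C δ : ℝ, 0 < δ ∧ ∀ t ∈ PD ε N, ‖t‖ < δ → AGo A (q (t ^ N)) (W t) →
      ‖Mi (fun x => q (x ^ N)) W t‖ ^ 3 ≤ C * ‖Wr (fun x => q (x ^ N)) W t‖ ^ 8 := by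
  by_cases hex : ∃ t1 ∈ PD ε N, AGo A (q (t1 ^ N)) (W t1)
  · obtain ⟨t1, ht1, hAG1⟩ := hex
    have hall := AGo_pd hAMI hALO A B hAC q W ε N hε hN hqd hq hW hAW t1 ht1 hAG1
    have hWm : MeromorphicAt W 0 := hAME A B hAC q W ε N hε hN hq0 (fun t ht => (hq t ht).2) hW hAW
    have hqm : MeromorphicAt (fun x : ℂ => q (x ^ N)) 0 := by
      have h1 : MeromorphicAt q ((fun x : ℂ => x ^ N) 0) := by
        show MeromorphicAt q ((0 : ℂ) ^ N)
        rw [zero_pow (by omega)]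
        exact hq0
      have h2 : AnalyticAt ℂ (fun x : ℂ => x ^ N) 0 := by fun_prop
      exact MeromorphicAt.comp_analyticAt (f := q) (g := fun x : ℂ => x ^ N) h1 h2
    have hb := place_bdd (fun x => q (x ^ N)) W 0 hqm hWm (by
      filter_upwards [ABD_near hε hN] with t ht
      exact (hall t ht).2) (fun hInf => hno (ias_of hInf (by
      filter_upwards [ABD_near hε hN] with t ht
      exact hA0 _ (hq _ ((ABD_pow hN).2 ht)).2 _ (hAW t ht))))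
    obtain ⟨C, hC⟩ := hb
    rw [eventually_nhdsWithin_iff, Metric.eventually_nhds_iff] at hC
    obtain ⟨δ, hδ, hC⟩ := hC
    refine ⟨C, δ, hδ, fun t ht htδ _ => ?_⟩
    exact hC (by rw [dist_zero_right]; exact htδ) (norm_pos_iff.1 ht.1)
  · push Not at hex
    exact ⟨0, 1, one_pos, fun t ht _ h => absurd h (hex t ht)⟩

theorem bd_all (hAHP : StAHP) (hAME : StAME) (hAMI : StAMI)
    (hALO : StALO) (A A0 : ℂ[X][Y]) (B : Set ℂ) (hAC : ACurve A B)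
    (hA0 : ∀ z ∉ B, ∀ w, A.evalEval z w = 0 → A0.evalEval z w = 0) (hno : ¬ IAs A0)
    (q : ℂ → ℂ) (ε : ℝ) (hε : 0 < ε) (hq0 : MeromorphicAt q 0)
    (hqd : DifferentiableOn ℂ q (PD ε 1)) (hq : ∀ t ∈ PD ε 1, deriv q t ≠ 0 ∧ q t ∉ B) :
    ∃ C ε' : ℝ, 0 < ε' ∧ ∀ s ∈ PD ε' 1, ∀ w, AGo A (q s) w → ∀ ω, Sheet A ω (q s) w →
      ‖Mi (fun x => x) ω (q s)‖ ^ 3 ≤ C * ‖Wr (fun x => x) ω (q s)‖ ^ 8 := by
  obtain ⟨n, N, W, hW, hcov⟩ := hAHP A B hAC q ε hε hqd (fun t ht => (hq t ht).2)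
  choose C δ hδ hbd using fun j => bd_place hAME hAMI hALO A A0 B hAC hA0 hno q ε hε hq0 hqd hq (N j)
    (hW j).1 (W j) (hW j).2.1 (hW j).2.2
  obtain ⟨ε', hε', hε'1, hε'2⟩ : ∃ ε' : ℝ, 0 < ε' ∧ ε' ≤ ε ∧ ∀ j, ε' ≤ δ j ^ N j := by
    have h1 : ∀ᶠ x in 𝓝[>] (0 : ℝ), ∀ j, x ≤ δ j ^ N j := by
      rw [Filter.eventually_all]
      intro j
      have h2 : ∀ᶠ x in 𝓝 (0 : ℝ), x < δ j ^ N j :=
        eventually_lt_nhds (pow_pos (hδ j) _)
      exact (h2.filter_mono nhdsWithin_le_nhds).mono fun x hx => hx.le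
    have h3 : ∀ᶠ x in 𝓝[>] (0 : ℝ), x ≤ ε :=
      ((eventually_lt_nhds hε).filter_mono nhdsWithin_le_nhds).mono fun x hx => hx.le
    have h4 : ∀ᶠ x in 𝓝[>] (0 : ℝ), 0 < x := self_mem_nhdsWithin
    obtain ⟨x, hx1, hx2, hx3⟩ := (h4.and (h3.and h1)).exists
    exact ⟨x, hx1, hx2, hx3⟩
  refine ⟨∑ j, |C j|, ε', hε', ?_⟩
  intro s hs w hAG ω hω
  have hs' : s ∈ PD ε 1 := ⟨hs.1, hs.2.trans_le hε'1⟩
  have hev : A.evalEval (q s) w = 0 := by
    have h1 := hω.2.2.self_of_nhds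
    rw [hω.2.1] at h1
    exact h1
  obtain ⟨j, t, htN, htW⟩ := hcov s hs' w hev
  have hN := (hW j).1
  have htP : t ∈ PD ε (N j) := by
    rw [← ABD_pow hN, htN]
    exact hs'
  have htδ : ‖t‖ < δ j := by
    have h1 : ‖t‖ ^ N j < δ j ^ N j := by
      rw [← norm_pow, htN]
      have h2 := hs.2
      rw [pow_one] at h2
      exact h2.trans_le (hε'2 j)
    exact lt_of_pow_lt_pow_left₀ (N j) (hδ j).le h1
  have hb := hbd j t htP htδ (by rw [htN, htW]; exact hAG)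
  set E : ℂ → ℂ := fun x => q (x ^ N j) with hE
  have hEt : E t = q s := by rw [hE]; simp only [htN]
  have hnh : PD ε 1 ∈ 𝓝 (t ^ N j) := by
    rw [htN]
    exact (ABD_open ε 1).mem_nhds hs'
  have hqa : AnalyticAt ℂ q (t ^ N j) := hqd.analyticAt hnh
  have hEa : AnalyticAt ℂ E t := by
    have h1 : AnalyticAt ℂ (fun x : ℂ => x ^ N j) t := by fun_prop
    exact AnalyticAt.comp (g := q) (f := fun x : ℂ => x ^ N j) hqa h1
  have hE1 : deriv E t ≠ 0 := by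
    have h1 : HasDerivAt (fun x : ℂ => x ^ N j) ((N j : ℂ) * t ^ (N j - 1)) t :=
      hasDerivAt_pow (N j) t
    have h2 : HasDerivAt q (deriv q (t ^ N j)) (t ^ N j) :=
      hqa.differentiableAt.hasDerivAt
    have h3 : HasDerivAt E (deriv q (t ^ N j) * ((N j : ℂ) * t ^ (N j - 1))) t :=
      HasDerivAt.comp t h2 h1
    rw [h3.deriv]
    have h4 : t ≠ 0 := norm_pos_iff.1 htP.1
    have h5 : (N j : ℂ) ≠ 0 := by
      have : N j ≠ 0 := by omega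
      exact_mod_cast this
    refine mul_ne_zero ?_ (mul_ne_zero h5 (pow_ne_zero _ h4))
    rw [htN]
    exact (hq s hs').1
  have hWc : ContinuousAt (W j) t :=
    ((hW j).2.1.differentiableAt ((ABD_open ε (N j)).mem_nhds htP)).continuousAt
  have hgerm : W j =ᶠ[𝓝 t] fun x => ω (E x) := by
    have h1 := (hALO A B hAC (q s) (hq s hs').2 w hev).2 ω hω
    have h2 : Tendsto (fun x => (E x, W j x)) (𝓝 t) (𝓝 (q s, w)) := by
      have h3 : ContinuousAt (fun x => (E x, W j x)) t := hEa.continuousAt.prodMk hWc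
      have h4 : (fun x => (E x, W j x)) t = (q s, w) := by
        simp only [hEt, htW]
      rw [← h4]
      exact h3
    filter_upwards [h2.eventually h1, (ABD_open ε (N j)).mem_nhds htP] with x h5 h6
    exact h5 ((hW j).2.2 x h6)
  obtain ⟨e1, e2⟩ := ABD_germ E (W j) (fun x => ω (E x)) t hgerm
  rw [e1, e2] at hb
  obtain ⟨e3, e4⟩ := hAMI E ω t hEa (by rw [hEt]; exact hω.1)
  rw [e3, e4, hEt, norm_mul, norm_mul, norm_pow, norm_pow, mul_pow, mul_pow, ← pow_mul,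
    ← pow_mul] at hb
  have hE1n : 0 < ‖deriv E t‖ ^ 24 := pow_pos (norm_pos_iff.2 hE1) 24
  have hb2 : ‖deriv E t‖ ^ 24 * ‖Mi (fun x => x) ω (q s)‖ ^ 3 ≤
      ‖deriv E t‖ ^ 24 * (C j * ‖Wr (fun x => x) ω (q s)‖ ^ 8) := by
    calc ‖deriv E t‖ ^ 24 * ‖Mi (fun x => x) ω (q s)‖ ^ 3
        = ‖deriv E t‖ ^ (8 * 3) * ‖Mi (fun x => x) ω (q s)‖ ^ 3 := rfl
      _ ≤ C j * (‖deriv E t‖ ^ (3 * 8) * ‖Wr (fun x => x) ω (q s)‖ ^ 8) := hb
      _ = ‖deriv E t‖ ^ 24 * (C j * ‖Wr (fun x => x) ω (q s)‖ ^ 8) := by ring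
  have hb3 := le_of_mul_le_mul_left hb2 hE1n
  refine hb3.trans (mul_le_mul_of_nonneg_right ?_ (by positivity))
  exact (le_abs_self _).trans
    (Finset.single_le_sum (f := fun j => |C j|) (fun i _ => abs_nonneg _) (Finset.mem_univ j))

end Q100.OA
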