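import Pool.Agent.H719R4.FZ.ABZ

/-! # A curve with its exceptional set, with control of the zeros -/

open Complex Set Filter Topology Polynomial

open scoped Polynomial.Bivariate

namespace Q100.OA

open H719FX H738CZ

/-- pseudo-division by an element of minimal degree of an ideal -/
theorem div_min (I : Ideal ℂ[X][Y]) (A' : ℂ[X][Y]) (hI : A' ∈ I) (h0 : A' ≠ 0)
    (hdeg : 0 < A'.natDegree)
    (hmin : ∀ P ∈ I, P ≠ 0 → A'.natDegree ≤ P.natDegree) (A : ℂ[X][Y]) (hA : A ∈ I) :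
    ∃ (D : ℂ[X]) (Q : ℂ[X][Y]), D ≠ 0 ∧ C D * A = Q * A' := by
  obtain ⟨n, hn⟩ : ∃ n, A.natDegree = n := ⟨_, rfl⟩
  induction n using Nat.strong_induction_on generalizing A with
  | _ n ih =>
    by_cases hA0 : A = 0
    · exact ⟨1, 0, one_ne_zero, by rw [hA0]; simp⟩
    · have hle := hmin A hA hA0
      set l := A'.leadingCoeff with hl
      have hl0 : l ≠ 0 := leadingCoeff_ne_zero.mpr h0
      set T : ℂ[X][Y] := C A.leadingCoeff * X ^ (A.natDegree - A'.natDegree) with hT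
      set A1 : ℂ[X][Y] := C l * A - T * A' with hA1
      have hA1I : A1 ∈ I := I.sub_mem (I.mul_mem_left _ hA) (I.mul_mem_left _ hI)
      have hdA : (C l * A).natDegree = A.natDegree := by
        rw [natDegree_mul (by rwa [Ne, C_eq_zero]) hA0, natDegree_C, zero_add]
      have hlA : (C l * A).leadingCoeff = l * A.leadingCoeff := by
        rw [leadingCoeff_mul, leadingCoeff_C]
      have hT0 : T ≠ 0 := mul_ne_zero (by rw [Ne, C_eq_zero]; exact leadingCoeff_ne_zero.mpr hA0)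
        (pow_ne_zero _ X_ne_zero)
      have hdT : (T * A').natDegree = A.natDegree := by
        rw [natDegree_mul hT0 h0, hT, natDegree_C_mul_X_pow _ _ (leadingCoeff_ne_zero.mpr hA0)]
        omega
      have hlT : (T * A').leadingCoeff = l * A.leadingCoeff := by
        rw [leadingCoeff_mul, hT, leadingCoeff_mul, leadingCoeff_C, leadingCoeff_X_pow, mul_one,
          mul_comm]
      have hlt : A1 = 0 ∨ A1.natDegree < n := by
        by_cases h1 : A1 = 0
        · exact Or.inl h1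
        · right
          have hCA : C l * A ≠ 0 := mul_ne_zero (by rwa [Ne, C_eq_zero]) hA0
          have h2 : A1.degree < (C l * A).degree := by
            apply degree_sub_lt
            · rw [degree_eq_natDegree hCA, degree_eq_natDegree (mul_ne_zero hT0 h0), hdA, hdT]
            · exact hCA
            · rw [hlA, hlT]
          have h3 := natDegree_lt_natDegree h1 h2
          rw [hdA] at h3
          omega
      obtain ⟨D1, Q1, hD1, e1⟩ : ∃ (D : ℂ[X]) (Q : ℂ[X][Y]), D ≠ 0 ∧ C D * A1 = Q * A' := by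
        rcases hlt with h1 | h1
        · exact ⟨1, 0, one_ne_zero, by rw [h1]; simp⟩
        · exact ih _ h1 A1 hA1I rfl
      refine ⟨D1 * l, Q1 + C D1 * T, mul_ne_zero hD1 hl0, ?_⟩
      rw [add_mul, ← e1, hA1, C_mul]
      ring

/-- a curve with its exceptional set; its zeros off this set are zeros of `A` -/
theorem bz (hABC : StABC) (A : ℂ[X][Y]) (hA : A ≠ 0) (Z W : ℂ → ℂ) (c : ℂ) (r : ℝ) (hr : 0 < r)
    (hZ : DifferentiableOn ℂ Z (Metric.ball c r)) (hW : DifferentiableOn ℂ W (Metric.ball c r))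
    (h : ∀ t ∈ Metric.ball c r, deriv Z t ≠ 0 ∧ deriv W t ≠ 0 ∧ Wr Z W t ≠ 0 ∧
      A.evalEval (Z t) (W t) = 0) :
    ∃ (A' : ℂ[X][Y]) (B : Set ℂ), ACurve A' B ∧
      (∀ t ∈ Metric.ball c r, A'.evalEval (Z t) (W t) = 0) ∧
      ∀ z ∉ B, ∀ w, A'.evalEval z w = 0 → A.evalEval z w = 0 := by
  set U := Metric.ball c r with hU
  have hUo : IsOpen U := Metric.isOpen_ball
  have hUc : IsPreconnected U := (convex_ball c r).isPreconnected
  have hUn : U.Nonempty := ⟨c, Metric.mem_ball_self hr⟩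
  have hI := ABZ_prime Z W U hUo hUc hUn hZ hW
  have hconst : ∀ a : ℂ[X], (C a : ℂ[X][Y]) ∈ ABZ_I Z W U → a = 0 := by
    intro a ha
    rw [ABZ_mem] at ha
    refine ABZ_const Z W U hUo hUn hZ (fun t ht => (h t ht).1) a.natDegree a rfl fun t ht => ?_
    have h1 := ha t ht
    rwa [evalEval_C] at h1
  have hex : ∃ n : ℕ, ∃ P ∈ ABZ_I Z W U, P ≠ 0 ∧ P.natDegree = n :=
    ⟨A.natDegree, A, (ABZ_mem _ _ _ _).mpr fun t ht => (h t ht).2.2.2, hA, rfl⟩
  classical
  obtain ⟨A', hA'I, hA'0, hA'n⟩ := Nat.find_spec hex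
  have hmin : ∀ P ∈ ABZ_I Z W U, P ≠ 0 → A'.natDegree ≤ P.natDegree := by
    intro P hP hP0
    rw [hA'n]
    exact Nat.find_min' hex ⟨P, hP, hP0, rfl⟩
  have hA'Z := (ABZ_mem _ _ _ _).mp hA'I
  have hdeg : 0 < A'.natDegree := by
    rcases Nat.eq_zero_or_pos A'.natDegree with h0 | h0
    · exfalso
      have h1 := eq_C_of_natDegree_eq_zero h0
      rw [h1] at hA'I
      have h2 := hconst _ hA'I
      rw [h2, C_0] at h1
      exact hA'0 h1
    · exact h0
  have hAy : derivative A' ∉ ABZ_I Z W U := by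
    intro h1
    have h2 : derivative A' ≠ 0 := by
      intro h3
      have h4 := derivative_eq_zero.mp h3
      omega
    have h3 := hmin _ h1 h2
    have h4 := natDegree_derivative_lt (p := A') (by omega)
    omega
  have htwo : ∀ t ∈ U, (ABZ_Dx A').evalEval (Z t) (W t) * deriv Z t
      + A'.derivative.evalEval (Z t) (W t) * deriv W t = 0 ∧
      (ABZ_N A').evalEval (Z t) (W t) * deriv Z t ^ 3 =
        - A'.derivative.evalEval (Z t) (W t) ^ 3 * Wr Z W t := by
    intro t ht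
    apply ABZ_two A' Z W t (hZ.analyticAt (hUo.mem_nhds ht)) (hW.analyticAt (hUo.mem_nhds ht))
    filter_upwards [hUo.mem_nhds ht] with s hs
    exact hA'Z s hs
  have hAx : ABZ_Dx A' ∉ ABZ_I Z W U := by
    intro h1
    apply hAy
    rw [ABZ_mem] at h1 ⊢
    intro t ht
    have h2 := (htwo t ht).1
    rw [h1 t ht, zero_mul, zero_add] at h2
    exact (mul_eq_zero.mp h2).resolve_right (h t ht).2.1
  have hN : ABZ_N A' ∉ ABZ_I Z W U := by
    intro h1
    apply hAy
    rw [ABZ_mem] at h1 ⊢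
    intro t ht
    have h2 := (htwo t ht).2
    rw [h1 t ht, zero_mul] at h2
    have h3 := (mul_eq_zero.mp h2.symm).resolve_right (h t ht).2.2.1
    exact pow_eq_zero_iff (by norm_num : (3 : ℕ) ≠ 0) |>.mp (neg_eq_zero.mp h3)
  obtain ⟨U1, V1, D1, hD1, e1⟩ := hABC _ hI hconst A' hA'I hA'0 hmin _ hAy
  obtain ⟨U2, V2, D2, hD2, e2⟩ := hABC _ hI hconst A' hA'I hA'0 hmin _ hAx
  obtain ⟨U3, V3, D3, hD3, e3⟩ := hABC _ hI hconst A' hA'I hA'0 hmin _ hN
  have hkey : ∀ (U V N : ℂ[X][Y]) (D : ℂ[X]), U * A' + V * N = C D → ∀ z w : ℂ,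
      D.eval z ≠ 0 → A'.evalEval z w = 0 → N.evalEval z w ≠ 0 := by
    intro U V N D e z w hD h0 h1
    have h2 : (U * A' + V * N).evalEval z w = (C D : ℂ[X][Y]).evalEval z w := by rw [e]
    rw [evalEval_add, evalEval_mul, evalEval_mul, h0, h1, evalEval_C, mul_zero, mul_zero,
      add_zero] at h2
    exact hD h2.symm
  obtain ⟨D4, Q4, hD4, e4⟩ := div_min (ABZ_I Z W U) A' hA'I hA'0 hdeg hmin A
    ((ABZ_mem _ _ _ _).mpr fun t ht => (h t ht).2.2.2)
  set Q : ℂ[X] := D1 * D2 * D3 * A'.leadingCoeff * D4 with hQ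
  have hQ0 : Q ≠ 0 := mul_ne_zero (mul_ne_zero (mul_ne_zero (mul_ne_zero hD1 hD2) hD3)
    (leadingCoeff_ne_zero.mpr hA'0)) hD4
  have hB : ∀ z ∉ {z : ℂ | Q.IsRoot z}, D1.eval z ≠ 0 ∧ D2.eval z ≠ 0 ∧ D3.eval z ≠ 0 ∧
      A'.leadingCoeff.eval z ≠ 0 ∧ D4.eval z ≠ 0 := by
    intro z hz
    have h1 : Q.eval z ≠ 0 := hz
    rw [hQ, eval_mul, eval_mul, eval_mul, eval_mul] at h1
    refine ⟨?_, ?_, ?_, ?_, ?_⟩
    · intro h2
      apply h1
      rw [h2]
      ring
    · intro h2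
      apply h1
      rw [h2]
      ring
    · intro h2
      apply h1
      rw [h2]
      ring
    · intro h2
      apply h1
      rw [h2]
      ring
    · intro h2
      apply h1
      rw [h2]
      ring
  refine ⟨A', {z : ℂ | Q.IsRoot z}, ⟨finite_setOfPred_isRoot hQ0, hdeg, ?_, ?_, ?_⟩, hA'Z, ?_⟩
  · intro z hz
    exact (hB z hz).2.2.2.1
  · intro z hz w hw
    exact hkey _ _ _ _ e1 z w (hB z hz).1 hw
  · intro z hz ω hω hev
    have h0 : A'.evalEval z (ω z) = 0 := hev.self_of_nhds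
    have hx := hkey _ _ _ _ e2 z (ω z) (hB z hz).2.1 h0
    have hn := hkey _ _ _ _ e3 z (ω z) (hB z hz).2.2.1 h0
    obtain ⟨h1, h2⟩ := ABZ_two A' (fun x => x) ω z analyticAt_id hω hev
    have hd1 : deriv (fun x : ℂ => x) z = 1 := by
      rw [deriv_id'']
    have hd2 : deriv (deriv (fun x : ℂ => x)) z = 0 := by
      rw [deriv_id'']
      exact deriv_const z 1
    unfold Wr at h2
    rw [hd1] at h1 h2
    rw [hd2] at h2
    refine ⟨?_, ?_⟩
    · intro h3
      apply hx
      rw [h3, mul_one, mul_zero, add_zero] at h1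
      exact h1
    · intro h3
      apply hn
      rw [h3] at h2
      have h4 : (ABZ_N A').evalEval z (ω z) = (ABZ_N A').evalEval z (ω z) * 1 ^ 3 := by ring
      rw [h4, h2]
      ring

  · intro z hz w hw
    have h1 : (C D4 * A).evalEval z w = (Q4 * A').evalEval z w := by rw [e4]
    rw [evalEval_mul, evalEval_mul, evalEval_C, hw, mul_zero] at h1
    exact (mul_eq_zero.mp h1).resolve_left (hB z hz).2.2.2.2

end Q100.OA
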