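import Pool.Agent.Q100.OA.Gl
import Pool.Agent.Q100.OA.Bz
import Pool.Agent.H719R4.FX.ALO
import Pool.Agent.H719R4.FZ.ASH
import Pool.Agent.H719R4.FZ.ACV
import Pool.Agent.H719R4.FZ.AUN
import Pool.Agent.H719R4.FZ.AHP
import Pool.Agent.H719R4.FZ.AME
import Pool.Agent.H719R4.FZ.ALI
import Pool.Agent.H719R4.FZ.ABC
import Pool.Agent.H719R4.FX.CQU
import Pool.Agent.H719R4.FZ.AAY

/-! # Good arcs on algebraic curves without inflectional asymptotes lie on conics -/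

open Complex Set Filter Topology Polynomial

open scoped Polynomial.Bivariate

namespace Q100.OA

open H719FX H738CZ

theorem core (A : ℂ[X][Y]) (hA : A ≠ 0) (hno : ¬ IAs A) (Z W : ℂ → ℂ) (c : ℂ) (r : ℝ)
    (hr : 0 < r) (hZ : DifferentiableOn ℂ Z (Metric.ball c r))
    (hW : DifferentiableOn ℂ W (Metric.ball c r))
    (h : ∀ t ∈ Metric.ball c r, deriv Z t ≠ 0 ∧ deriv W t ≠ 0 ∧ Wr Z W t ≠ 0)
    (hAZ : ∀ t ∈ Metric.ball c r, A.evalEval (Z t) (W t) = 0) (hG : GO Z W c) :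
    ∃ q0 q1 q2 q3 q4 q5 : ℂ, ¬ (q0 = 0 ∧ q1 = 0 ∧ q2 = 0 ∧ q3 = 0 ∧ q4 = 0 ∧ q5 = 0) ∧
      ∀ t ∈ Metric.ball c r,
        q0 * Z t ^ 2 + q1 * Z t * W t + q2 * W t ^ 2 + q3 * Z t + q4 * W t + q5 = 0 := by
  have hxr : c ∈ Metric.ball c r := Metric.mem_ball_self hr
  have hopen : IsOpen (Metric.ball c r) := Metric.isOpen_ball
  obtain ⟨A', B, hAC, hA', hA0⟩ := bz tABC A hA Z W c r hr hZ hW fun t ht =>
    ⟨(h t ht).1, (h t ht).2.1, (h t ht).2.2, hAZ t ht⟩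
  have hZax : AnalyticAt ℂ Z c := hZ.analyticAt (hopen.mem_nhds hxr)
  have hev : ∀ᶠ z in 𝓝[≠] c, Z z ∉ B := by
    have h1 : ∀ b ∈ B, ∀ᶠ z in 𝓝[≠] c, Z z ≠ b := by
      intro b _
      rcases hZax.eventually_eq_or_eventually_ne (analyticAt_const (v := b)) with h' | h'
      · exfalso
        have h2 : Z =ᶠ[𝓝 c] fun _ => b := h'
        have h3 := h2.deriv_eq
        rw [deriv_const] at h3
        exact (h c hxr).1 h3
      · exact h'
    have h2 := (Filter.eventually_all_finite hAC.fin).2 h1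
    filter_upwards [h2] with z hz hzB
    exact hz _ hzB rfl
  obtain ⟨t0, ht0B, ht0r⟩ : ∃ t0 : ℂ, Z t0 ∉ B ∧ t0 ∈ Metric.ball c r :=
    (hev.and (nhdsWithin_le_nhds (hopen.mem_nhds hxr))).exists
  have hgood0 : GO Z W t0 := GO_seg Z W (Metric.ball c r) c t0 hopen hZ hW h
    ((convex_ball c r).segment_subset hxr ht0r) hG
  have hZa : AnalyticAt ℂ Z t0 := hZ.analyticAt (hopen.mem_nhds ht0r)
  have hWa : AnalyticAt ℂ W t0 := hW.analyticAt (hopen.mem_nhds ht0r)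
  have hASH := tASH tALO
  have hAHP := tAHP (tACV tALO hASH) (tAUN hASH)
  obtain ⟨⟨ω, hω⟩, huni⟩ := tALO A' B hAC (Z t0) ht0B (W t0) (hA' t0 ht0r)
  have hωW : ∀ᶠ t in 𝓝 t0, W t = ω (Z t) := by
    have h1 : Tendsto (fun t => (Z t, W t)) (𝓝 t0) (𝓝 (Z t0, W t0)) :=
      (hZa.continuousAt.prodMk hWa.continuousAt).tendsto
    filter_upwards [h1.eventually (huni ω hω), hopen.mem_nhds ht0r] with t h2 h3
    exact h2 (hA' t h3)
  have hgood1 : GO Z (fun s => ω (Z s)) t0 :=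
    GO_germ hZa hWa (EventuallyEq.refl _ _) hωW hgood0
  have hAG : AGo A' (Z t0) (W t0) := ⟨ω, hω, (GO_iff Z ω t0 hZa (h t0 ht0r).1 hω.1).1 hgood1⟩
  obtain ⟨m0, hm0⟩ := gl_main tALO hASH hAHP tAME tAMI tALI A' A B hAC hA0 hno (Z t0) ht0B
    (W t0) ω hAG hω
  have hflex := hAC.flex (Z t0) ht0B ω hω.1 hω.2.2
  have hωa : ∀ᶠ z in 𝓝 (Z t0), AnalyticAt ℂ ω z := hω.1.eventually_analyticAt
  have hWrne : ∀ᶠ z in 𝓝 (Z t0), Wr (fun x => x) ω z ≠ 0 := by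
    have h1 : ContinuousAt (deriv (deriv ω)) (Z t0) := hω.1.deriv.deriv.continuousAt
    filter_upwards [h1.eventually_ne hflex.2] with z hz
    rw [AAY_Wr]
    exact hz
  obtain ⟨r', hr', hball'⟩ := Metric.eventually_nhds_iff_ball.1 (hωa.and (hWrne.and hm0))
  obtain ⟨q0, q1, q2, q3, q4, q5, hq, hqe⟩ := tCQU (fun x => x) ω (Z t0) m0 r' hr'
    differentiableOn_id (fun z hz => (hball' z hz).1.differentiableAt.differentiableWithinAt)
    fun z hz => (hball' z hz).2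
  have hback : ∀ᶠ t in 𝓝 t0, q0 * Z t ^ 2 + q1 * Z t * W t + q2 * W t ^ 2 + q3 * Z t +
      q4 * W t + q5 = 0 := by
    filter_upwards [hZa.continuousAt.eventually hqe, hωW] with t h1 h2
    rw [h2]
    exact h1
  refine ⟨q0, q1, q2, q3, q4, q5, hq, ?_⟩
  have hd : DifferentiableOn ℂ (fun t => q0 * Z t ^ 2 + q1 * Z t * W t + q2 * W t ^ 2 +
      q3 * Z t + q4 * W t + q5) (Metric.ball c r) :=
    ((((((hZ.pow 2).const_mul q0).add ((hZ.const_mul q1).mul hW)).add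
      ((hW.pow 2).const_mul q2)).add (hZ.const_mul q3)).add (hW.const_mul q4)).add
      (differentiableOn_const _)
  have h1 := (hd.analyticOnNhd hopen).eqOn_zero_of_preconnected_of_eventuallyEq_zero
    (convex_ball c r).isPreconnected ht0r hback
  exact fun t ht => h1 ht

end Q100.OA
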