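import Pool.Agent.H719R4.FX.Fin4
import Pool.Agent.H719R4.FX.AGS
import Pool.Agent.H719R4.FZ.AMI

/-! # Outer billiards on algebraic curves: good points in both coordinates -/

open Complex Set Filter Topology Polynomial

open scoped Polynomial.Bivariate

namespace Q100.OA

open H719FX H738CZ

/-- good point for the outer billiard, in both coordinates -/
def GO (P Q : ℂ → ℂ) (t : ℂ) : Prop := GoodO P Q t ∧ GoodO Q P t

/-- `(z, w)` is a good point of the curve -/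
def AGo (A : ℂ[X][Y]) (z w : ℂ) : Prop :=
  ∃ ω : ℂ → ℂ, Sheet A ω z w ∧ GO (fun x => x) ω z

theorem GO.ne {P Q : ℂ → ℂ} {t : ℂ} (h : GO P Q t) :
    deriv P t ≠ 0 ∧ deriv Q t ≠ 0 ∧ Wr P Q t ≠ 0 := ⟨h.1.1, h.2.1, h.1.2.1⟩

theorem GO.swap {P Q : ℂ → ℂ} {t : ℂ} (h : GO P Q t) : GO Q P t := ⟨h.2, h.1⟩

theorem oseg : StOSG := by
  obtain ⟨-, -, -, -, -, hLAW, hINI, hCPX, hTRL, hDSC⟩ := cz
  exact tOSG hTRL hDSC

theorem GO_seg (P Q : ℂ → ℂ) (U : Set ℂ) (a b : ℂ) (hU : IsOpen U) (hX : DifferentiableOn ℂ P U)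
    (hY : DifferentiableOn ℂ Q U)
    (hne : ∀ t ∈ U, deriv P t ≠ 0 ∧ deriv Q t ≠ 0 ∧ Wr P Q t ≠ 0)
    (hs : segment ℝ a b ⊆ U) (h : GO P Q a) : GO P Q b := by
  refine ⟨oseg P Q U a b hU hX hY (fun t ht => ⟨(hne t ht).1, (hne t ht).2.2⟩) hs h.1,
    oseg Q P U a b hU hY hX (fun t ht => ⟨(hne t ht).2.1, ?_⟩) hs h.2⟩
  rw [OFO_swap]
  exact neg_ne_zero.2 (hne t ht).2.2

theorem GoodO_tp {P Q P1 Q1 Φ : ℂ → ℂ} {t : ℂ} (hX : AnalyticAt ℂ P t) (hY : AnalyticAt ℂ Q t)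
    (hΦ : AnalyticAt ℂ Φ t) (hΦ1 : deriv Φ t ≠ 0) (hX1 : AnalyticAt ℂ P1 (Φ t))
    (hY1 : AnalyticAt ℂ Q1 (Φ t))
    (h : ∀ᶠ s in 𝓝 t, deriv P s = deriv P1 (Φ s) * deriv Φ s ∧
      deriv Q s = deriv Q1 (Φ s) * deriv Φ s) (hG : GO P1 Q1 (Φ t)) : GO P Q t :=
  ⟨tOTP P Q P1 Q1 Φ t hX hY hΦ hΦ1 hX1 hY1 h hG.1,
    tOTP Q P Q1 P1 Φ t hY hX hΦ hΦ1 hY1 hX1 (h.mono fun s hs => ⟨hs.2, hs.1⟩) hG.2⟩

theorem GO_germ {P Q P2 Q2 : ℂ → ℂ} {t : ℂ} (hXa : AnalyticAt ℂ P t) (hYa : AnalyticAt ℂ Q t)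
    (hX : P =ᶠ[𝓝 t] P2) (hY : Q =ᶠ[𝓝 t] Q2) (h : GO P Q t) : GO P2 Q2 t := by
  have e1 : ∀ s : ℂ, deriv (fun x : ℂ => x) s = 1 := fun s => deriv_id s
  refine GoodO_tp (Φ := fun x => x) (hXa.congr hX) (hYa.congr hY) analyticAt_id ?_ hXa hYa ?_ h
  · rw [e1]; exact one_ne_zero
  · filter_upwards [hX.deriv, hY.deriv] with s h1 h2
    rw [e1, mul_one, mul_one, h1, h2]
    exact ⟨rfl, rfl⟩

theorem chain_ev (V E : ℂ → ℂ) (s : ℂ) (hE : AnalyticAt ℂ E s) (hV : AnalyticAt ℂ V (E s)) :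
    ∀ᶠ x in 𝓝 s, deriv (fun t => V (E t)) x = deriv V (E x) * deriv E x := by
  have hE0 : Tendsto E (𝓝 s) (𝓝 (E s)) := hE.continuousAt.tendsto
  filter_upwards [hE.eventually_analyticAt, hE0.eventually hV.eventually_analyticAt] with x h1 h2
  exact (HasDerivAt.comp x h2.differentiableAt.hasDerivAt h1.differentiableAt.hasDerivAt).deriv

/-- pull back along a change of parameter -/
theorem GO_pull (Z W E : ℂ → ℂ) (s : ℂ) (hE : AnalyticAt ℂ E s) (hE1 : deriv E s ≠ 0)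
    (hZ : AnalyticAt ℂ Z (E s)) (hW : AnalyticAt ℂ W (E s)) (hG : GO Z W (E s)) :
    GO (fun x => Z (E x)) (fun x => W (E x)) s := by
  refine GoodO_tp (P1 := Z) (Q1 := W) (Φ := E) (hZ.comp hE) (hW.comp hE) hE hE1 hZ hW ?_ hG
  filter_upwards [chain_ev Z E s hE hZ, chain_ev W E s hE hW] with x h1 h2
  exact ⟨h1, h2⟩

/-- push forward along a change of parameter -/
theorem GO_push (Z W E : ℂ → ℂ) (s : ℂ) (hE : AnalyticAt ℂ E s) (hE1 : deriv E s ≠ 0)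
    (hZ : AnalyticAt ℂ Z (E s)) (hW : AnalyticAt ℂ W (E s))
    (hG : GO (fun x => Z (E x)) (fun x => W (E x)) s) : GO Z W (E s) := by
  set e := hE.hasStrictDerivAt.localInverse _ _ _ hE1 with hedef
  have he : AnalyticAt ℂ e (E s) := hE.analyticAt_localInverse hE1
  have hes : e (E s) = s := HasStrictFDerivAt.localInverse_apply_image ..
  have hEe : ∀ᶠ y in 𝓝 (E s), E (e y) = y :=
    HasStrictDerivAt.eventually_right_inverse hE.hasStrictDerivAt hE1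
  have hne : deriv e (E s) ≠ 0 := by
    have h7 : HasDerivAt (fun z => E (e z)) (deriv E s * deriv e (E s)) (E s) := by
      have h6 : HasDerivAt E (deriv E s) (e (E s)) := by
        rw [hes]; exact hE.differentiableAt.hasDerivAt
      exact h6.comp (E s) he.differentiableAt.hasDerivAt
    have h8 : HasDerivAt (fun z : ℂ => z) (deriv E s * deriv e (E s)) (E s) :=
      h7.congr_of_eventuallyEq (by filter_upwards [hEe] with z hz; exact hz.symm)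
    have h9 := h8.unique (hasDerivAt_id (E s))
    intro h0
    rw [h0, mul_zero] at h9
    exact zero_ne_one h9
  have hEa : AnalyticAt ℂ E (e (E s)) := by rw [hes]; exact hE
  have a1 : AnalyticAt ℂ (fun x => Z (E x)) (e (E s)) := by rw [hes]; exact hZ.comp hE
  have a2 : AnalyticAt ℂ (fun x => W (E x)) (e (E s)) := by rw [hes]; exact hW.comp hE
  have hG' : GO (fun x => Z (E x)) (fun x => W (E x)) (e (E s)) := by rw [hes]; exact hG
  have hpull := GO_pull (fun x => Z (E x)) (fun x => W (E x)) e (E s) he hne a1 a2 hG'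
  refine GO_germ (a1.comp he) (a2.comp he) ?_ ?_ hpull
  · filter_upwards [hEe] with y hy
    simp only [Function.comp, hy]
  · filter_upwards [hEe] with y hy
    simp only [Function.comp, hy]

theorem GO_iff (E ω : ℂ → ℂ) (s : ℂ) (hE : AnalyticAt ℂ E s) (hE1 : deriv E s ≠ 0)
    (hω : AnalyticAt ℂ ω (E s)) : GO E (fun x => ω (E x)) s ↔ GO (fun x => x) ω (E s) :=
  ⟨fun h => GO_push (fun x => x) ω E s hE hE1 analyticAt_id hω h,
    fun h => GO_pull (fun x => x) ω E s hE hE1 analyticAt_id hω h⟩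

theorem AGo_iff (hAMI : StAMI) (hALO : StALO) {A : ℂ[X][Y]} {B : Set ℂ}
    (hA : ACurve A B)
    {U : Set ℂ} {f g : ℂ → ℂ} (hU : IsOpen U) (hf : DifferentiableOn ℂ f U)
    (hg : DifferentiableOn ℂ g U)
    (h : ∀ x ∈ U, deriv f x ≠ 0 ∧ f x ∉ B ∧ A.evalEval (f x) (g x) = 0)
    {x : ℂ} (hx : x ∈ U) : AGo A (f x) (g x) ↔ GO f g x := by
  obtain ⟨h1, h2, h3⟩ := h x hx
  have hfa : AnalyticAt ℂ f x := hf.analyticAt (hU.mem_nhds hx)
  have hga : AnalyticAt ℂ g x := hg.analyticAt (hU.mem_nhds hx)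
  constructor
  · rintro ⟨ω, hω, hG⟩
    obtain ⟨hE, -, -⟩ := AGS_loc hAMI hALO hA hU hf hg h hx ω hω
    exact GO_germ hfa (hga.congr hE) (EventuallyEq.refl _ _) hE.symm
      ((GO_iff f ω x hfa h1 hω.1).2 hG)
  · intro hG
    obtain ⟨ω, hω⟩ := (hALO A B hA (f x) h2 (g x) h3).1
    obtain ⟨hE, -, -⟩ := AGS_loc hAMI hALO hA hU hf hg h hx ω hω
    exact ⟨ω, hω, (GO_iff f ω x hfa h1 hω.1).1
      (GO_germ hfa hga (EventuallyEq.refl _ _) hE hG)⟩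

/-- good points propagate in convex sets -/
theorem AGo_conv (hAMI : StAMI) (hALO : StALO) (A : ℂ[X][Y]) (B : Set ℂ) (hA : ACurve A B)
    (U : Set ℂ) (f g : ℂ → ℂ)
    (hU : IsOpen U) (hUc : Convex ℝ U) (hf : DifferentiableOn ℂ f U)
    (hg : DifferentiableOn ℂ g U)
    (h : ∀ x ∈ U, deriv f x ≠ 0 ∧ f x ∉ B ∧ A.evalEval (f x) (g x) = 0)
    (a : ℂ) (ha : a ∈ U) (hAG : AGo A (f a) (g a)) (b : ℂ) (hb : b ∈ U) :
    AGo A (f b) (g b) ∧ GO f g b := by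
  have hGa : GO f g a := (AGo_iff hAMI hALO hA hU hf hg h ha).1 hAG
  have hGb : GO f g b := by
    refine GO_seg f g U a b hU hf hg ?_ (hUc.segment_subset ha hb) hGa
    intro t ht
    obtain ⟨h1, h2, h3⟩ := h t ht
    obtain ⟨ω, hω⟩ := (hALO A B hA (f t) h2 (g t) h3).1
    obtain ⟨-, h4, h5⟩ := AGS_loc hAMI hALO hA hU hf hg h ht ω hω
    exact ⟨h1, h4, h5⟩
  exact ⟨(AGo_iff hAMI hALO hA hU hf hg h hb).2 hGb, hGb⟩

end Q100.OA
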