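import Pool.Agent.Q100.OA.Go
import Pool.Agent.H719R4.FX.AGP
import Pool.Agent.H719R4.FX.PCL
import Pool.Agent.H719R4.FX.PPB
import Pool.Agent.H719R4.FX.PPI
import Pool.Agent.H719R4.FX.PLC

/-! # Outer billiards on algebraic curves: punctured discs and places -/

open Complex Set Filter Topology Polynomial

open scoped Polynomial.Bivariate

namespace Q100.OA

open H719FX H738CZ

/-- good points propagate in punctured discs -/
theorem AGo_pd (hAMI : StAMI) (hALO : StALO) (A : ℂ[X][Y]) (B : Set ℂ) (hA : ACurve A B)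
    (q W : ℂ → ℂ) (ε : ℝ) (N : ℕ) (hε : 0 < ε) (hN : 1 ≤ N) (hq : DifferentiableOn ℂ q (PD ε 1))
    (hqd : ∀ t ∈ PD ε 1, deriv q t ≠ 0 ∧ q t ∉ B)
    (hW : DifferentiableOn ℂ W (PD ε N)) (hAW : ∀ t ∈ PD ε N, A.evalEval (q (t ^ N)) (W t) = 0)
    (t1 : ℂ) (ht1 : t1 ∈ PD ε N) (hAG : AGo A (q (t1 ^ N)) (W t1)) (t : ℂ) (ht : t ∈ PD ε N) :
    AGo A (q (t ^ N)) (W t) ∧ GO (fun x => q (x ^ N)) W t := by
  set H : Set ℂ := {ζ : ℂ | (N : ℝ) * ζ.re < Real.log ε} with hH
  have hHo : IsOpen H := by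
    rw [hH]
    exact isOpen_lt (continuous_const.mul Complex.continuous_re) continuous_const
  have hHc : Convex ℝ H := by
    intro x hx y hy a b ha hb hab
    have hx' : (N : ℝ) * x.re < Real.log ε := hx
    have hy' : (N : ℝ) * y.re < Real.log ε := hy
    show (N : ℝ) * (a • x + b • y).re < Real.log ε
    have h1 : (a • x + b • y).re = a * x.re + b * y.re := by simp
    rw [h1]
    have h2 : (N : ℝ) * (a * x.re + b * y.re) = a * (N * x.re) + b * (N * y.re) := by ring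
    rw [h2]
    rcases eq_or_lt_of_le ha with ha0 | ha0
    · rw [← ha0] at hab ⊢
      have hb1 : b = 1 := by linarith
      rw [hb1]
      linarith
    · have h3 : a * ((N : ℝ) * x.re) < a * Real.log ε := mul_lt_mul_of_pos_left hx' ha0
      have h4 : b * ((N : ℝ) * y.re) ≤ b * Real.log ε := mul_le_mul_of_nonneg_left hy'.le hb
      have h5 : a * Real.log ε + b * Real.log ε = Real.log ε := by rw [← add_mul, hab, one_mul]
      linarith
  have hexp : ∀ ζ ∈ H, Complex.exp ζ ∈ PD ε N := by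
    intro ζ hζ
    refine ⟨?_, ?_⟩
    · rw [Complex.norm_exp]
      exact Real.exp_pos _
    · rw [AGP_norm_exp_pow]
      have h1 : (N : ℝ) * ζ.re < Real.log ε := hζ
      calc Real.exp (N * ζ.re) < Real.exp (Real.log ε) := Real.exp_lt_exp.mpr h1
        _ = ε := Real.exp_log hε
  have hlog : ∀ t ∈ PD ε N, Complex.log t ∈ H ∧ Complex.exp (Complex.log t) = t := by
    intro t ht
    have ht0 : t ≠ 0 := norm_pos_iff.mp ht.1
    refine ⟨?_, Complex.exp_log ht0⟩
    show (N : ℝ) * (Complex.log t).re < Real.log ε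
    rw [Complex.log_re, ← Real.log_pow]
    exact Real.log_lt_log (pow_pos ht.1 N) ht.2
  have hPDo := AGP_isOpen_PD ε N
  have hZ : DifferentiableOn ℂ (fun x => q (x ^ N)) (PD ε N) := by
    refine hq.comp (differentiable_pow N).differentiableOn ?_
    intro t ht
    exact AGP_pow_mem ht
  have hf : DifferentiableOn ℂ (fun ζ => q (Complex.exp ζ ^ N)) H :=
    hZ.comp Complex.differentiable_exp.differentiableOn hexp
  have hg : DifferentiableOn ℂ (fun ζ => W (Complex.exp ζ)) H :=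
    hW.comp Complex.differentiable_exp.differentiableOn hexp
  have hprop : ∀ x ∈ H, deriv (fun ζ => q (Complex.exp ζ ^ N)) x ≠ 0 ∧
      (fun ζ => q (Complex.exp ζ ^ N)) x ∉ B ∧
      A.evalEval ((fun ζ => q (Complex.exp ζ ^ N)) x) ((fun ζ => W (Complex.exp ζ)) x) = 0 := by
    intro x hx
    have h1 := hexp x hx
    have h2 := AGP_pow_mem h1
    refine ⟨?_, (hqd _ h2).2, hAW _ h1⟩
    have hqat : HasDerivAt q (deriv q (Complex.exp x ^ N)) (Complex.exp x ^ N) :=
      ((hq _ h2).differentiableAt ((AGP_isOpen_PD ε 1).mem_nhds h2)).hasDerivAt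
    have hpw : HasDerivAt (fun ζ => Complex.exp ζ ^ N)
        ((N : ℂ) * Complex.exp x ^ (N - 1) * Complex.exp x) x :=
      (Complex.hasDerivAt_exp x).pow N
    have hcomp := HasDerivAt.comp x hqat hpw
    have hd : deriv (fun ζ => q (Complex.exp ζ ^ N)) x =
        deriv q (Complex.exp x ^ N) * ((N : ℂ) * Complex.exp x ^ (N - 1) * Complex.exp x) :=
      hcomp.deriv
    rw [hd]
    refine mul_ne_zero (hqd _ h2).1 (mul_ne_zero (mul_ne_zero ?_ ?_) (Complex.exp_ne_zero x))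
    · exact_mod_cast (by omega : N ≠ 0)
    · exact pow_ne_zero _ (Complex.exp_ne_zero x)
  obtain ⟨ha, hea⟩ := hlog t1 ht1
  obtain ⟨hb, heb⟩ := hlog t ht
  have key := AGo_conv hAMI hALO A B hA H _ _ hHo hHc hf hg hprop (Complex.log t1) ha (by
    show AGo A (q (Complex.exp (Complex.log t1) ^ N)) (W (Complex.exp (Complex.log t1)))
    rw [hea]
    exact hAG) (Complex.log t) hb
  obtain ⟨k1, k2⟩ := key
  have k1' : AGo A (q (Complex.exp (Complex.log t) ^ N)) (W (Complex.exp (Complex.log t))) := k1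
  rw [heb] at k1'
  refine ⟨k1', ?_⟩
  have hmem : Complex.exp (Complex.log t) ∈ PD ε N := by rw [heb]; exact ht
  have k3 := GO_push (fun x => q (x ^ N)) W Complex.exp (Complex.log t)
    (Complex.differentiable_exp.analyticAt _)
    (by rw [Complex.deriv_exp]; exact Complex.exp_ne_zero _)
    (hZ.analyticAt (hPDo.mem_nhds hmem)) (hW.analyticAt (hPDo.mem_nhds hmem)) k2
  rwa [heb] at k3

/-- inflectional asymptote of a branch -/
def InfA (Z W : ℂ → ℂ) (t0 : ℂ) : Prop :=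
  ∃ α β γ : ℂ, (α ≠ 0 ∨ β ≠ 0) ∧ Tendsto (fun t => ‖Z t‖ + ‖W t‖) (𝓝[≠] t0) atTop ∧
    Tendsto (fun t => ‖α * Z t + β * W t + γ‖ * (‖Z t‖ + ‖W t‖)) (𝓝[≠] t0) (𝓝 0)

theorem InfA_swap {Z W : ℂ → ℂ} {t0 : ℂ} (h : InfA Z W t0) : InfA W Z t0 := by
  obtain ⟨α, β, γ, h0, h1, h2⟩ := h
  refine ⟨β, α, γ, h0.symm, ?_, ?_⟩
  · simpa only [add_comm] using h1
  · have e : (fun t => ‖β * W t + α * Z t + γ‖ * (‖W t‖ + ‖Z t‖)) =
        fun t => ‖α * Z t + β * W t + γ‖ * (‖Z t‖ + ‖W t‖) := by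
      funext t
      rw [add_comm (β * W t), add_comm ‖W t‖]
    rw [e]
    exact h2

end Q100.OA
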