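import Pool.Agent.Q100.OA.Pl

/-! # Bound of the affine curvature at all places but the inflectional asymptotes -/

open Complex Set Filter Topology

namespace Q100.OA

open H719FX H738CZ

theorem obr : StOBR := tOBR fin_end fin_nex tGIN

theorem Bdd_swap {Z W : ℂ → ℂ} {t0 : ℂ} (h : Bdd W Z t0) : Bdd Z W t0 := by
  obtain ⟨C, hC⟩ := h
  refine ⟨C, ?_⟩
  filter_upwards [hC] with t h1
  rw [PLC_Mis Z W, PLC_Wrs Z W, Pi.neg_apply, norm_neg] at h1
  exact h1

theorem place_bdd (Z W : ℂ → ℂ) (t0 : ℂ) (hZ : MeromorphicAt Z t0) (hW : MeromorphicAt W t0)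
    (hG : ∀ᶠ t in 𝓝[≠] t0, GO Z W t) (hno : ¬ InfA Z W t0) : Bdd Z W t0 := by
  have hreg : ∀ᶠ t in 𝓝[≠] t0, deriv Z t ≠ 0 ∧ deriv W t ≠ 0 ∧ Wr Z W t ≠ 0 :=
    hG.mono fun t h => h.ne
  rcases tPCL Z W t0 hZ hW hreg with ⟨Z', W', hZ', hW', he⟩ | ⟨a, k, ha, hk, h⟩
  · have he2 : ∀ᶠ t in 𝓝[≠] t0, ∀ᶠ s in 𝓝 t, Z s = Z' s ∧ W s = W' s := by
      filter_upwards [eventually_eventually_nhdsWithin.2 he, self_mem_nhdsWithin] with t h1 h2
      rwa [isOpen_compl_singleton.nhdsWithin_eq h2] at h1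
    have hG' : ∀ᶠ t in 𝓝[≠] t0, GO Z' W' t := by
      filter_upwards [hG, he2, hZ'.eventually_analyticAt.filter_mono nhdsWithin_le_nhds,
        hW'.eventually_analyticAt.filter_mono nhdsWithin_le_nhds] with t h1 h2 h3 h4
      exact GO_germ (h3.congr (h2.mono fun s h => h.1.symm))
        (h4.congr (h2.mono fun s h => h.2.symm)) (h2.mono fun s h => h.1)
        (h2.mono fun s h => h.2) h1
    have hnz : ¬ ∀ᶠ t in 𝓝 t0, Wr Z' W' t = 0 := by
      intro hcon
      obtain ⟨t, h1, h2⟩ := (hG'.and (nhdsWithin_le_nhds hcon)).exists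
      exact h1.ne.2.2 h2
    have hnz' : ¬ ∀ᶠ t in 𝓝 t0, Wr W' Z' t = 0 := by
      intro hcon
      obtain ⟨t, h1, h2⟩ := (hG'.and (nhdsWithin_le_nhds hcon)).exists
      exact h1.swap.ne.2.2 h2
    have hR : Reg Z' W' t0 := by
      rcases le_total (analyticOrderAt (deriv Z') t0) (analyticOrderAt (deriv W') t0) with h | h
      · exact obr Z' W' t0 hZ' hW' hnz h (hG'.mono fun t h => h.1)
      · exact OFO_reg_swap (obr W' Z' t0 hW' hZ' hnz' h (hG'.mono fun t h => h.2))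
    obtain ⟨C, hC⟩ := tTMI Z' W' t0 hR
    refine ⟨C, ?_⟩
    filter_upwards [he2, nhdsWithin_le_nhds hC] with t h1 h2
    have e1 : Z =ᶠ[𝓝 t] Z' := h1.mono fun s h => h.1
    have e2 : W =ᶠ[𝓝 t] W' := h1.mono fun s h => h.2
    rw [PLC_Mi e1 e2, (PLC_Wr e1 e2).eq_of_nhds]
    exact h2
  · by_cases hak : 2 * a < k
    · exfalso
      rcases h with h | h | h
      · exact hno (infA_br hZ hW ha hak h)
      · exact hno (infA_bi hZ hW ha hak h)
      · exact hno (InfA_swap (infA_bi hW hZ ha hak h))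
    · have hak' : k ≤ 2 * a := by omega
      rcases h with h | h | h
      · exact tPPB Z W t0 a k ha hk hak' h
      · exact tPPI Z W t0 a k ha hk hak' h
      · exact Bdd_swap (tPPI W Z t0 a k ha hk hak' h)

end Q100.OA
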