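import Pool.Agent.Q100.OA.Gp
import Pool.Agent.H738R3.CZ.V3C

/-! # Branches at infinity: inflectional asymptotes -/

open Complex Set Filter Topology

namespace Q100.OA

open H719FX H738CZ

/-- a meromorphic function whose derivative is `(t - t0) ^ m * h t` near `t0` -/
theorem prim_bound {L h : ℂ → ℂ} {t0 : ℂ} {m : ℕ} (hL : MeromorphicAt L t0)
    (hh : AnalyticAt ℂ h t0) (hd : ∀ᶠ t in 𝓝[≠] t0, deriv L t = (t - t0) ^ m * h t) :
    ∃ (c : ℂ) (C : ℝ), 0 ≤ C ∧ ∀ᶠ t in 𝓝[≠] t0, ‖L t - c‖ ≤ C * ‖t - t0‖ ^ (m + 1) := by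
  have hLa : ∀ᶠ t in 𝓝[≠] t0, AnalyticAt ℂ L t := hL.eventually_analyticAt
  have hha : ∀ᶠ t in 𝓝 t0, AnalyticAt ℂ h t ∧ ‖h t‖ < ‖h t0‖ + 1 :=
    hh.eventually_analyticAt.and (hh.continuousAt.norm.eventually (gt_mem_nhds (by linarith)))
  have hev : ∀ᶠ t in 𝓝 t0, (t ≠ t0 → AnalyticAt ℂ L t ∧ deriv L t = (t - t0) ^ m * h t) ∧
      AnalyticAt ℂ h t ∧ ‖h t‖ < ‖h t0‖ + 1 := by
    refine Filter.Eventually.and ?_ hha
    exact eventually_nhdsWithin_iff.1 (hLa.and hd)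
  obtain ⟨r, hr, hb⟩ := Metric.eventually_nhds_iff_ball.1 hev
  have hp : DifferentiableOn ℂ (fun t => (t - t0) ^ m * h t) (Metric.ball t0 r) := by
    intro t ht
    have h1 : DifferentiableAt ℂ h t := (hb t ht).2.1.differentiableAt
    have h2 : DifferentiableAt ℂ (fun t : ℂ => (t - t0) ^ m) t := by fun_prop
    exact (h2.mul h1).differentiableWithinAt
  obtain ⟨P, hP⟩ := hp.isExactOn_ball
  -- the difference is constant
  have hmem : ∀ τ ∈ V3 r, t0 + τ ∈ Metric.ball t0 r ∧ t0 + τ ≠ t0 := by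
    intro τ hτ
    refine ⟨?_, ?_⟩
    · rw [Metric.mem_ball, dist_eq_norm, add_sub_cancel_left]
      have := hτ.1
      rwa [Metric.mem_ball, dist_zero_right] at this
    · intro h0
      exact hτ.2 (by simpa using h0)
  have hder : ∀ τ ∈ V3 r, HasDerivAt (fun τ => L (t0 + τ) - P (t0 + τ)) 0 τ := by
    intro τ hτ
    obtain ⟨h1, h2⟩ := hmem τ hτ
    obtain ⟨h3, h4⟩ := (hb _ h1).1 h2
    have e1 : HasDerivAt L ((t0 + τ - t0) ^ m * h (t0 + τ)) (t0 + τ) := by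
      rw [← h4]
      exact h3.differentiableAt.hasDerivAt
    have e2 := hP _ h1
    have e3 : HasDerivAt (fun τ : ℂ => t0 + τ) 1 τ := by
      simpa using (hasDerivAt_id τ).const_add t0
    have e4 := (e1.comp τ e3).sub (e2.comp τ e3)
    have e5 : HasDerivAt (fun τ => L (t0 + τ) - P (t0 + τ)) _ τ := e4
    refine e5.congr_deriv ?_
    ring
  have hopen : IsOpen (V3 r) := Metric.isOpen_ball.sdiff isClosed_singleton
  have hconst : ∀ x ∈ V3 r, ∀ y ∈ V3 r,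
      L (t0 + x) - P (t0 + x) = L (t0 + y) - P (t0 + y) := by
    intro x hx y hy
    exact hopen.is_const_of_deriv_eq_zero (tV3C r)
      (fun τ hτ => (hder τ hτ).differentiableAt.differentiableWithinAt)
      (fun τ hτ => (hder τ hτ).deriv) hx hy
  set y0 : ℂ := ((r / 2 : ℝ) : ℂ) with hy0
  have hy0m : y0 ∈ V3 r := by
    refine ⟨?_, ?_⟩
    · rw [Metric.mem_ball, dist_zero_right, hy0, Complex.norm_real, Real.norm_eq_abs,
        abs_of_pos (by linarith)]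
      linarith
    · intro h0
      rw [mem_singleton_iff, hy0] at h0
      have : (r / 2 : ℝ) = 0 := by exact_mod_cast h0
      linarith
  refine ⟨L (t0 + y0) - P (t0 + y0) + P t0, ‖h t0‖ + 1, by positivity, ?_⟩
  have hnear : ∀ᶠ t in 𝓝[≠] t0, t ∈ Metric.ball t0 r :=
    nhdsWithin_le_nhds (Metric.ball_mem_nhds t0 hr)
  filter_upwards [hnear, self_mem_nhdsWithin] with t ht htne
  have htne' : t ≠ t0 := htne
  have htV : t - t0 ∈ V3 r := by
    refine ⟨?_, ?_⟩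
    · rw [Metric.mem_ball, dist_zero_right]
      rwa [Metric.mem_ball, dist_eq_norm] at ht
    · intro h0
      exact htne' (sub_eq_zero.1 h0)
  have e1 := hconst _ htV _ hy0m
  rw [add_sub_cancel] at e1
  have e2 : L t - (L (t0 + y0) - P (t0 + y0) + P t0) = P t - P t0 := by
    rw [← e1]
    ring
  rw [e2]
  have hsub : Metric.closedBall t0 ‖t - t0‖ ⊆ Metric.ball t0 r := by
    intro s hs
    rw [Metric.mem_closedBall] at hs
    rw [Metric.mem_ball, dist_eq_norm] at ht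
    exact Metric.mem_ball.2 (hs.trans_lt ht)
  have hmv := Convex.norm_image_sub_le_of_norm_hasDerivWithin_le (f := P)
    (f' := fun t => (t - t0) ^ m * h t) (s := Metric.closedBall t0 ‖t - t0‖)
    (C := (‖h t0‖ + 1) * ‖t - t0‖ ^ m) (x := t0) (y := t)
    (fun x hx => (hP x (hsub hx)).hasDerivWithinAt) (fun x hx => by
      rw [norm_mul, norm_pow, mul_comm]
      have h1 := (hb x (hsub hx)).2.2.le
      have h2 : ‖x - t0‖ ≤ ‖t - t0‖ := by
        rw [Metric.mem_closedBall, dist_eq_norm] at hx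
        exact hx
      exact mul_le_mul h1 (pow_le_pow_left₀ (norm_nonneg _) h2 m) (by positivity)
        (by positivity)) (convex_closedBall _ _)
    (Metric.mem_closedBall_self (norm_nonneg _)) (by
      rw [Metric.mem_closedBall, dist_eq_norm])
  calc ‖P t - P t0‖ ≤ (‖h t0‖ + 1) * ‖t - t0‖ ^ m * ‖t - t0‖ := hmv
    _ = (‖h t0‖ + 1) * ‖t - t0‖ ^ (m + 1) := by ring

/-- a meromorphic function whose derivative has a pole of order `a + 1` -/
theorem pole_form {Z f : ℂ → ℂ} {t0 : ℂ} {a : ℕ} (hZ : MeromorphicAt Z t0)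
    (hf : AnalyticAt ℂ f t0) (hf0 : f t0 ≠ 0)
    (hd : ∀ᶠ t in 𝓝[≠] t0, deriv Z t = (t - t0) ^ (-((a : ℤ) + 1)) * f t) :
    ∃ g : ℂ → ℂ, AnalyticAt ℂ g t0 ∧ g t0 ≠ 0 ∧
      ∀ᶠ t in 𝓝[≠] t0, Z t = (t - t0) ^ (-(a : ℤ)) * g t := by
  have hfne : ∀ᶠ t in 𝓝[≠] t0, f t ≠ 0 :=
    (hf.continuousAt.eventually_ne hf0).filter_mono nhdsWithin_le_nhds
  have hbot : ∀ {p : Prop}, (∀ᶠ t in 𝓝[≠] t0, p) → p := by
    intro p hp
    exact hp.exists.choose_spec
  by_cases htop : meromorphicOrderAt Z t0 = ⊤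
  · exfalso
    rw [meromorphicOrderAt_eq_top_iff] at htop
    have h1 : Z =ᶠ[𝓝[≠] t0] fun _ => (0 : ℂ) := htop
    have h2 := h1.nhdsNE_deriv
    apply hbot
    filter_upwards [h2, hd, hfne, self_mem_nhdsWithin] with t ht1 ht2 ht3 ht4
    rw [ht1, deriv_const] at ht2
    exact mul_ne_zero (zpow_ne_zero _ (sub_ne_zero.2 ht4)) ht3 ht2.symm
  · obtain ⟨n, hn⟩ := WithTop.ne_top_iff_exists.mp htop
    obtain ⟨g, hga, hg0, hgZ⟩ := (meromorphicOrderAt_eq_int_iff hZ).1 hn.symm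
    -- the derivative
    have hder : ∀ᶠ t in 𝓝[≠] t0, deriv Z t =
        (t - t0) ^ (n - 1) * ((n : ℂ) * g t + (t - t0) * deriv g t) := by
      have h1 : Z =ᶠ[𝓝[≠] t0] fun t => (t - t0) ^ n * g t := by
        filter_upwards [hgZ] with t ht
        rw [ht, smul_eq_mul]
      have h2 := h1.nhdsNE_deriv
      have h3 : ∀ᶠ t in 𝓝[≠] t0, AnalyticAt ℂ g t :=
        hga.eventually_analyticAt.filter_mono nhdsWithin_le_nhds
      filter_upwards [h2, h3, self_mem_nhdsWithin] with t ht1 ht2 ht3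
      have hs : t - t0 ≠ 0 := sub_ne_zero.2 ht3
      have e0 : HasDerivAt (fun t : ℂ => t - t0) 1 t := (hasDerivAt_id t).sub_const t0
      have e1 : HasDerivAt (fun t => (t - t0) ^ n) ((n : ℂ) * (t - t0) ^ (n - 1) * 1) t :=
        HasDerivAt.comp (h₂ := fun x : ℂ => x ^ n) (h := fun t => t - t0) t
          (hasDerivAt_zpow n (t - t0) (Or.inl hs)) e0
      have e2 := (e1.mul ht2.differentiableAt.hasDerivAt).deriv
      have e3 : deriv (fun t => (t - t0) ^ n * g t) t =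
        (n : ℂ) * (t - t0) ^ (n - 1) * 1 * g t + (t - t0) ^ n * deriv g t := e2
      rw [ht1, e3]
      have e4 : (t - t0) ^ n = (t - t0) ^ (n - 1) * (t - t0) := by
        rw [← zpow_add_one₀ hs, sub_add_cancel]
      rw [e4]
      ring
    set F : ℂ → ℂ := fun t => (n : ℂ) * g t + (t - t0) * deriv g t with hF
    have hFa : AnalyticAt ℂ F t0 :=
      (analyticAt_const.mul hga).add ((analyticAt_id.sub analyticAt_const).mul hga.deriv)
    have hF0 : F t0 = n * g t0 := by simp [hF]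
    have hkey : ∀ᶠ t in 𝓝[≠] t0, f t = (t - t0) ^ (n + a) * F t := by
      filter_upwards [hd, hder, self_mem_nhdsWithin] with t h1 h2 h3
      have hs : t - t0 ≠ 0 := sub_ne_zero.2 h3
      have h4 : (t - t0) ^ (-((a : ℤ) + 1)) * f t = (t - t0) ^ (n - 1) * F t := by rw [← h1, h2]
      have h5 : (t - t0) ^ (n + a) = (t - t0) ^ ((a : ℤ) + 1) * (t - t0) ^ (n - 1) := by
        rw [← zpow_add₀ hs]
        congr 1
        ring
      rw [h5, mul_assoc, ← h4, ← mul_assoc, ← zpow_add₀ hs]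
      simp
    have hna : n + a = 0 := by
      rcases lt_trichotomy (n + (a : ℤ)) 0 with h | h | h
      · -- then `F t0 = 0`, so `n = 0`, but `n < 0`
        exfalso
        have hn0 : (n : ℂ) ≠ 0 := by
          have : n ≠ 0 := by omega
          exact_mod_cast this
        have hF0' : F t0 ≠ 0 := by
          rw [hF0]
          exact mul_ne_zero hn0 hg0
        obtain ⟨k, hk⟩ : ∃ k : ℕ, (k : ℤ) = -(n + a) ∧ 1 ≤ k := ⟨(-(n + a)).toNat, by omega, by omega⟩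
        have h1 : Tendsto (fun t => (t - t0) ^ k * f t) (𝓝[≠] t0) (𝓝 ((t0 - t0) ^ k * f t0)) := by
          have : ContinuousAt (fun t => (t - t0) ^ k * f t) t0 :=
            ((continuousAt_id.sub continuousAt_const).pow k).mul hf.continuousAt
          exact this.tendsto.mono_left nhdsWithin_le_nhds
        rw [sub_self, zero_pow (by omega), zero_mul] at h1
        have h2 : Tendsto F (𝓝[≠] t0) (𝓝 0) := by
          refine h1.congr' ?_
          filter_upwards [hkey, self_mem_nhdsWithin] with t h3 h4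
          have hs : t - t0 ≠ 0 := sub_ne_zero.2 h4
          rw [h3, ← mul_assoc, ← zpow_natCast, hk.1, ← zpow_add₀ hs]
          simp
        have h3 : Tendsto F (𝓝[≠] t0) (𝓝 (F t0)) :=
          hFa.continuousAt.tendsto.mono_left nhdsWithin_le_nhds
        exact hF0' (tendsto_nhds_unique h3 h2)
      · exact h
      · exfalso
        obtain ⟨k, hk⟩ : ∃ k : ℕ, (k : ℤ) = n + a ∧ 1 ≤ k := ⟨(n + a).toNat, by omega, by omega⟩
        have h1 : Tendsto (fun t => (t - t0) ^ k * F t) (𝓝[≠] t0) (𝓝 ((t0 - t0) ^ k * F t0)) := by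
          have : ContinuousAt (fun t => (t - t0) ^ k * F t) t0 :=
            ((continuousAt_id.sub continuousAt_const).pow k).mul hFa.continuousAt
          exact this.tendsto.mono_left nhdsWithin_le_nhds
        rw [sub_self, zero_pow (by omega), zero_mul] at h1
        have h2 : Tendsto f (𝓝[≠] t0) (𝓝 0) := by
          refine h1.congr' ?_
          filter_upwards [hkey] with t h3
          rw [h3, ← zpow_natCast, hk.1]
        have h3 : Tendsto f (𝓝[≠] t0) (𝓝 (f t0)) :=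
          hf.continuousAt.tendsto.mono_left nhdsWithin_le_nhds
        exact hf0 (tendsto_nhds_unique h3 h2)
    refine ⟨g, hga, hg0, ?_⟩
    filter_upwards [hgZ] with t ht
    rw [ht, smul_eq_mul, show n = -(a : ℤ) by omega]


/-- size of a function with a pole -/
theorem pole_size {Z f : ℂ → ℂ} {t0 : ℂ} {a : ℕ} (hZ : MeromorphicAt Z t0)
    (hf : AnalyticAt ℂ f t0) (hf0 : f t0 ≠ 0)
    (hd : ∀ᶠ t in 𝓝[≠] t0, deriv Z t = (t - t0) ^ (-((a : ℤ) + 1)) * f t) :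
    ∃ c C : ℝ, 0 < c ∧ 0 ≤ C ∧ ∀ᶠ t in 𝓝[≠] t0, c ≤ ‖Z t‖ * ‖t - t0‖ ^ a ∧
      ‖Z t‖ * ‖t - t0‖ ^ a ≤ C := by
  obtain ⟨g, hg, hg0, hZg⟩ := pole_form hZ hf hf0 hd
  have hpos : 0 < ‖g t0‖ := norm_pos_iff.2 hg0
  refine ⟨‖g t0‖ / 2, ‖g t0‖ + 1, by positivity, by positivity, ?_⟩
  have b1 : ∀ᶠ t in 𝓝[≠] t0, ‖g t‖ < ‖g t0‖ + 1 :=
    (hg.continuousAt.norm.eventually (gt_mem_nhds (by linarith))).filter_mono nhdsWithin_le_nhds
  have b2 : ∀ᶠ t in 𝓝[≠] t0, ‖g t0‖ / 2 < ‖g t‖ :=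
    (hg.continuousAt.norm.eventually (lt_mem_nhds (by linarith))).filter_mono nhdsWithin_le_nhds
  filter_upwards [hZg, b1, b2, self_mem_nhdsWithin] with t h1 h2 h3 h4
  have hs : 0 < ‖t - t0‖ := norm_pos_iff.2 (sub_ne_zero.2 h4)
  have e : ‖Z t‖ * ‖t - t0‖ ^ a = ‖g t‖ := by
    rw [h1, norm_mul, norm_zpow, zpow_neg, zpow_natCast]
    field_simp
  rw [e]
  exact ⟨h3.le, h2.le⟩

theorem pow_tend (t0 : ℂ) {m : ℕ} (hm : 1 ≤ m) (C : ℝ) :
    Tendsto (fun t => C * ‖t - t0‖ ^ m) (𝓝[≠] t0) (𝓝 0) := by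
  have : ContinuousAt (fun t : ℂ => C * ‖t - t0‖ ^ m) t0 := by fun_prop
  have h := this.tendsto
  simp only [sub_self, norm_zero, zero_pow (by omega : m ≠ 0), mul_zero] at h
  exact h.mono_left nhdsWithin_le_nhds

/-- criterion for an inflectional asymptote -/
theorem infA_of {Z W : ℂ → ℂ} {t0 : ℂ} {a m : ℕ} (α β γ : ℂ) (h0 : α ≠ 0 ∨ β ≠ 0) (ha : 1 ≤ a)
    (ham : a < m) (C1 C2 c : ℝ) (hc : 0 < c) (hC1 : 0 ≤ C1)
    (h1 : ∀ᶠ t in 𝓝[≠] t0, ‖α * Z t + β * W t + γ‖ ≤ C1 * ‖t - t0‖ ^ m)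
    (h2 : ∀ᶠ t in 𝓝[≠] t0, (‖Z t‖ + ‖W t‖) * ‖t - t0‖ ^ a ≤ C2)
    (h3 : ∀ᶠ t in 𝓝[≠] t0, c ≤ (‖Z t‖ + ‖W t‖) * ‖t - t0‖ ^ a) : InfA Z W t0 := by
  refine ⟨α, β, γ, h0, ?_, ?_⟩
  · rw [tendsto_atTop]
    intro M
    have h4 : ∀ᶠ t in 𝓝[≠] t0, |M| * ‖t - t0‖ ^ a < c := by
      have := pow_tend t0 ha |M|
      exact this.eventually (gt_mem_nhds hc)
    filter_upwards [h3, h4, self_mem_nhdsWithin] with t h5 h6 h7
    have hs : 0 < ‖t - t0‖ ^ a := pow_pos (norm_pos_iff.2 (sub_ne_zero.2 h7)) _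
    have h8 : |M| * ‖t - t0‖ ^ a < (‖Z t‖ + ‖W t‖) * ‖t - t0‖ ^ a := h6.trans_le h5
    exact (le_abs_self M).trans (lt_of_mul_lt_mul_right h8 hs.le).le
  · have h4 := pow_tend t0 (show 1 ≤ m - a by omega) (C1 * C2)
    refine squeeze_zero' (Eventually.of_forall fun t => by positivity) ?_ h4
    filter_upwards [h1, h2, self_mem_nhdsWithin] with t h5 h6 h7
    have e : ‖t - t0‖ ^ m = ‖t - t0‖ ^ (m - a) * ‖t - t0‖ ^ a := by
      rw [← pow_add]
      congr 1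
      omega
    calc ‖α * Z t + β * W t + γ‖ * (‖Z t‖ + ‖W t‖)
        ≤ C1 * ‖t - t0‖ ^ m * (‖Z t‖ + ‖W t‖) := by gcongr
      _ = C1 * ‖t - t0‖ ^ (m - a) * ((‖Z t‖ + ‖W t‖) * ‖t - t0‖ ^ a) := by rw [e]; ring
      _ ≤ C1 * ‖t - t0‖ ^ (m - a) * C2 := by gcongr
      _ = C1 * C2 * ‖t - t0‖ ^ (m - a) := by ring

theorem infA_br {Z W : ℂ → ℂ} {t0 : ℂ} {a k : ℕ} (hZ : MeromorphicAt Z t0)
    (hW : MeromorphicAt W t0) (ha : 1 ≤ a) (hk : 2 * a < k) (h : PBr Z W t0 a k) :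
    InfA Z W t0 := by
  obtain ⟨f, g, h, hf, hg, hh, hf0, hg0, -, hZ', hW', he⟩ := h
  obtain ⟨c1, C1, hc1, hC1, hZs⟩ := pole_size hZ hf hf0 hZ'
  obtain ⟨c2, C2, hc2, hC2, hWs⟩ := pole_size hW hg hg0 hW'
  have hL : MeromorphicAt (fun t => f t0 * W t - g t0 * Z t) t0 :=
    ((MeromorphicAt.const _ _).mul hW).sub ((MeromorphicAt.const _ _).mul hZ)
  have hd : ∀ᶠ t in 𝓝[≠] t0, deriv (fun t => f t0 * W t - g t0 * Z t) t =
      (t - t0) ^ (k - a - 1) * h t := by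
    filter_upwards [hZ', hW', he.filter_mono nhdsWithin_le_nhds, hZ.eventually_analyticAt,
      hW.eventually_analyticAt, self_mem_nhdsWithin] with t e1 e2 e3 e4 e5 e6
    have hs : t - t0 ≠ 0 := sub_ne_zero.2 e6
    have d1 := (e5.differentiableAt.hasDerivAt.const_mul (f t0)).sub
      (e4.differentiableAt.hasDerivAt.const_mul (g t0))
    have d2 : deriv (fun t => f t0 * W t - g t0 * Z t) t = f t0 * deriv W t - g t0 * deriv Z t :=
      d1.deriv
    rw [d2, e1, e2]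
    have e7 : (t - t0) ^ (k - a - 1) = (t - t0) ^ (-((a : ℤ) + 1)) * (t - t0) ^ k := by
      rw [← zpow_natCast, ← zpow_natCast, ← zpow_add₀ hs]
      congr 1
      omega
    rw [e7, mul_assoc, ← e3]
    ring
  obtain ⟨c, C, hC, hb⟩ := prim_bound hL hh hd
  refine infA_of (a := a) (m := k - a - 1 + 1) (-(g t0)) (f t0) (-c) (Or.inr hf0) ha (by omega) C
    (C1 + C2) c1 hc1 hC ?_ ?_ ?_
  · filter_upwards [hb] with t ht
    have e : -(g t0) * Z t + f t0 * W t + -c = f t0 * W t - g t0 * Z t - c := by ring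
    rw [e]
    exact ht
  · filter_upwards [hZs, hWs] with t h1 h2
    rw [add_mul]
    exact add_le_add h1.2 h2.2
  · filter_upwards [hZs, hWs] with t h1 h2
    rw [add_mul]
    have : 0 ≤ ‖W t‖ * ‖t - t0‖ ^ a := by positivity
    linarith [h1.1]

theorem infA_bi {Z W : ℂ → ℂ} {t0 : ℂ} {a k : ℕ} (hZ : MeromorphicAt Z t0)
    (hW : MeromorphicAt W t0) (ha : 1 ≤ a) (hk : 2 * a < k) (h : PBI Z W t0 a k) :
    InfA Z W t0 := by
  obtain ⟨f, g, hf, hg, hf0, hg0, hZ', hW'⟩ := h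
  obtain ⟨c2, C2, hc2, hC2, hWs⟩ := pole_size hW hg hg0 hW'
  have hd : ∀ᶠ t in 𝓝[≠] t0, deriv Z t = (t - t0) ^ (k - a - 1) * f t := by
    filter_upwards [hZ', self_mem_nhdsWithin] with t e1 e2
    rw [e1, ← zpow_natCast]
    congr 2
    omega
  obtain ⟨c, C, hC, hb⟩ := prim_bound hZ hf hd
  have hnear : ∀ᶠ t in 𝓝[≠] t0, ‖t - t0‖ ≤ 1 := by
    have h1 : ∀ᶠ t in 𝓝 t0, t ∈ Metric.ball t0 1 := Metric.ball_mem_nhds t0 one_pos
    filter_upwards [h1.filter_mono nhdsWithin_le_nhds] with t ht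
    rw [← dist_eq_norm]
    exact (Metric.mem_ball.1 ht).le
  refine infA_of (a := a) (m := k - a - 1 + 1) 1 0 (-c) (Or.inl one_ne_zero) ha (by omega) C
    (‖c‖ + C + C2) c2 hc2 hC ?_ ?_ ?_
  · filter_upwards [hb] with t ht
    have e : 1 * Z t + 0 * W t + -c = Z t - c := by ring
    rw [e]
    exact ht
  · filter_upwards [hb, hWs, hnear] with t h1 h2 h3
    rw [add_mul]
    refine add_le_add ?_ h2.2
    have h4 : ‖Z t‖ ≤ ‖c‖ + C := by
      have h5 : ‖Z t‖ ≤ ‖Z t - c‖ + ‖c‖ := by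
        have := norm_add_le (Z t - c) c
        rwa [sub_add_cancel] at this
      have h6 : C * ‖t - t0‖ ^ (k - a - 1 + 1) ≤ C * 1 :=
        mul_le_mul_of_nonneg_left (pow_le_one₀ (norm_nonneg _) h3) hC
      linarith
    have h5 : ‖t - t0‖ ^ a ≤ 1 := pow_le_one₀ (norm_nonneg _) h3
    have h6 : 0 ≤ ‖c‖ + C := by positivity
    calc ‖Z t‖ * ‖t - t0‖ ^ a ≤ (‖c‖ + C) * 1 := mul_le_mul h4 h5 (by positivity) h6
      _ = ‖c‖ + C := mul_one _
  · filter_upwards [hWs] with t h1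
    rw [add_mul]
    have : 0 ≤ ‖Z t‖ * ‖t - t0‖ ^ a := by positivity
    linarith [h1.1]

end Q100.OA
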