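import Pool.Agent.H719R4.FX.Alg

/-! # Affine change of coordinates in polynomials in two variables -/

open Complex Set Filter Topology Polynomial

open scoped Polynomial.Bivariate

namespace Q100.OA

open H719FX H738CZ

/-- `x = (z + w) / 2` -/
noncomputable def xs : ℂ[X][Y] := C (C (1 / 2) * X) + C (C (1 / 2)) * X

/-- `y = (z - w) / (2 i)` -/
noncomputable def ys : ℂ[X][Y] := C (C (1 / (2 * I)) * X) - C (C (1 / (2 * I))) * X

/-- the substitution of `xs`, `ys` -/
noncomputable def sb : ℂ[X][Y] →+* ℂ[X][Y] := eval₂RingHom (eval₂RingHom (C.comp C) xs) ys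

theorem sb_eval (A : ℂ[X][Y]) (z w : ℂ) :
    (sb A).evalEval z w = A.evalEval ((z + w) / 2) ((z - w) / (2 * I)) := by
  have h : (evalEvalRingHom z w).comp sb = evalEvalRingHom ((z + w) / 2) ((z - w) / (2 * I)) := by
    apply Polynomial.ringHom_ext
    · intro a
      have h1 : ((evalEvalRingHom z w).comp sb).comp C =
          (evalEvalRingHom ((z + w) / 2) ((z - w) / (2 * I))).comp C := by
        apply Polynomial.ringHom_ext
        · intro c
          simp [sb, evalEval, coe_evalEvalRingHom]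
        · simp [sb, evalEval, coe_evalEvalRingHom, xs]
          ring
      exact RingHom.congr_fun h1 a
    · simp [sb, evalEval, coe_evalEvalRingHom, ys]
      field_simp
      rw [I_sq]
      ring
  exact RingHom.congr_fun h A

/-- a polynomial vanishing everywhere is zero -/
theorem eq_zero_of_ev (A : ℂ[X][Y]) (h : ∀ z w : ℂ, A.evalEval z w = 0) : A = 0 := by
  apply Polynomial.eq_zero_of_infinite_isRoot
  have h1 : Set.range (fun c : ℂ => (C c : ℂ[X])) ⊆ {x | A.IsRoot x} := by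
    rintro _ ⟨c, rfl⟩
    show A.eval (C c) = 0
    apply Polynomial.funext
    intro z
    rw [eval_zero]
    exact h z c
  exact (Set.infinite_range_of_injective C_injective).mono h1

theorem sb_ne (A : ℂ[X][Y]) (hA : A ≠ 0) : sb A ≠ 0 := by
  intro h
  apply hA
  apply eq_zero_of_ev
  intro x y
  have h1 := sb_eval A (x + I * y) (x - I * y)
  rw [h, evalEval_zero] at h1
  have e1 : (x + I * y + (x - I * y)) / 2 = x := by ring
  have e2 : (x + I * y - (x - I * y)) / (2 * I) = y := by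
    field_simp
    ring
  rw [e1, e2] at h1
  exact h1.symm

/-- a conic in the coordinates `z, w` -/
theorem quad_change (q0 q1 q2 q3 q4 q5 : ℂ)
    (hq : ¬ (q0 = 0 ∧ q1 = 0 ∧ q2 = 0 ∧ q3 = 0 ∧ q4 = 0 ∧ q5 = 0)) :
    ∃ p0 p1 p2 p3 p4 p5 : ℂ, ¬ (p0 = 0 ∧ p1 = 0 ∧ p2 = 0 ∧ p3 = 0 ∧ p4 = 0 ∧ p5 = 0) ∧
      ∀ z w : ℂ, p0 * z ^ 2 + p1 * z * w + p2 * w ^ 2 + p3 * z + p4 * w + p5 =
        q0 * ((z + w) / 2) ^ 2 + q1 * ((z + w) / 2) * ((z - w) / (2 * I)) +
          q2 * ((z - w) / (2 * I)) ^ 2 + q3 * ((z + w) / 2) + q4 * ((z - w) / (2 * I)) + q5 := by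
  have hI2 : I ^ 2 = -1 := I_sq
  have hinv : (1 : ℂ) / (2 * I) = -I / 2 := by
    field_simp
    rw [hI2]
    ring
  refine ⟨q0 / 4 - q1 * I / 4 - q2 / 4, q0 / 2 + q2 / 2, q0 / 4 + q1 * I / 4 - q2 / 4,
    q3 / 2 - q4 * I / 2, q3 / 2 + q4 * I / 2, q5, ?_, ?_⟩
  · rintro ⟨h0, h1, h2, h3, h4, h5⟩
    apply hq
    have e0 : q0 = 0 := by linear_combination h0 + h1 + h2
    have e2 : q2 = 0 := by linear_combination -h0 + h1 - h2
    have e1 : q1 = 0 := by
      have : q1 * I = 0 := by linear_combination 2 * h2 - 2 * h0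
      exact (mul_eq_zero.1 this).resolve_right I_ne_zero
    have e3 : q3 = 0 := by linear_combination h3 + h4
    have e4 : q4 = 0 := by
      have : q4 * I = 0 := by linear_combination h4 - h3
      exact (mul_eq_zero.1 this).resolve_right I_ne_zero
    exact ⟨e0, e1, e2, e3, e4, h5⟩
  · intro z w
    have e : (z - w) / (2 * I) = (z - w) * (-I / 2) := by rw [← hinv]; ring
    rw [e]
    linear_combination (-(q2 * (z - w) ^ 2 / 4)) * hI2

end Q100.OA
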