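import Pool.Agent.Q100.OA.Core
import Pool.Agent.Q100.OA.Sub
import Pool.Agent.H719R4.FX.AEX
import Pool.Agent.H719R4.FX.AFL
import Pool.Agent.H719R4.FZ.AS2
import Pool.Agent.H719R4.FZ.AFR
import Pool.Agent.W743.BE.OutFin

/-! # Outer billiards about algebraic ovals -/

open Complex Set Filter Topology Polynomial

open scoped Polynomial.Bivariate ContDiff

namespace Q100.OA

open H719FX H738CZ

theorem ost : StOST := by
  obtain ⟨-, -, -, -, -, hLAW, hINI, hCPX, hTRL, hDSC⟩ := cz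
  exact tOST (tOGD hINI hCPX hLAW) tSGN

theorem re_mem {x r : ℝ} {t : ℝ} : (t : ℂ) ∈ Metric.ball (x : ℂ) r ↔ |t - x| < r := by
  rw [Metric.mem_ball, dist_eq_norm, ← Complex.ofReal_sub, Complex.norm_real, Real.norm_eq_abs]

/-- start at an analytic point -/
theorem start {γ : ℝ → ℂ} {ρ : ℝ → ℝ} (ho : IsOval γ ρ) {K : ℝ → ℝ → ℝ} {U : Set (ℝ × ℝ)}
    (hK : OInt γ K U) {s0 : ℝ} (hs : AnalyticAt ℝ γ s0) :
    ∃ (x : ℝ) (P Q : ℂ → ℂ) (r : ℝ), 0 < r ∧ DifferentiableOn ℂ P (Metric.ball (x : ℂ) r) ∧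
      DifferentiableOn ℂ Q (Metric.ball (x : ℂ) r) ∧
      (∀ t : ℝ, (t : ℂ) ∈ Metric.ball (x : ℂ) r → P t = (γ t).re ∧ Q t = (γ t).im) ∧
      (∀ t ∈ Metric.ball (x : ℂ) r, deriv P t ≠ 0 ∧ deriv Q t ≠ 0 ∧ Wr P Q t ≠ 0) ∧
      GO P Q x := by
  have hre : AnalyticAt ℝ (fun s => (((γ s).re : ℝ) : ℂ)) s0 :=
    (Complex.ofRealCLM.analyticAt _).comp ((Complex.reCLM.analyticAt _).comp hs)
  have him : AnalyticAt ℝ (fun s => (((γ s).im : ℝ) : ℂ)) s0 :=
    (Complex.ofRealCLM.analyticAt _).comp ((Complex.imCLM.analyticAt _).comp hs)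
  obtain ⟨P, r1, hr1, hP, hPγ⟩ := tAEX _ s0 hre
  obtain ⟨Q, r2, hr2, hQ, hQγ⟩ := tAEX _ s0 him
  set r := min r1 r2 with hr
  have hrp : 0 < r := lt_min hr1 hr2
  have hP' : DifferentiableOn ℂ P (Metric.ball (s0 : ℂ) r) :=
    hP.mono (Metric.ball_subset_ball (min_le_left _ _))
  have hQ' : DifferentiableOn ℂ Q (Metric.ball (s0 : ℂ) r) :=
    hQ.mono (Metric.ball_subset_ball (min_le_right _ _))
  have hPr : ∀ t : ℝ, (t : ℂ) ∈ Metric.ball (s0 : ℂ) r → P t = (γ t).re := fun t ht =>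
    hPγ t (Metric.ball_subset_ball (min_le_left _ _) ht)
  have hQr : ∀ t : ℝ, (t : ℂ) ∈ Metric.ball (s0 : ℂ) r → Q t = (γ t).im := fun t ht =>
    hQγ t (Metric.ball_subset_ball (min_le_right _ _) ht)
  have hopen : IsOpen (Metric.ball (s0 : ℂ) r) := Metric.isOpen_ball
  have hdP := hP'.deriv hopen
  have hdQ := hQ'.deriv hopen
  -- derivatives at real points
  have hreal : ∀ t : ℝ, (t : ℂ) ∈ Metric.ball (s0 : ℂ) r →
      deriv P t = -(ρ t * Complex.sin t) ∧ deriv Q t = ρ t * Complex.cos t := by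
    intro t ht
    have hnear : ∀ᶠ u : ℝ in 𝓝 t, (u : ℂ) ∈ Metric.ball (s0 : ℂ) r :=
      Complex.continuous_ofReal.continuousAt.preimage_mem_nhds (hopen.mem_nhds ht)
    have hder := ho.der t
    have e1 : (ρ t : ℂ) * I * cexp (t * I) = ⟨ρ t * -Real.sin t, ρ t * Real.cos t⟩ := by
      apply Complex.ext
      · simp [Complex.exp_ofReal_mul_I_re, Complex.exp_ofReal_mul_I_im]
      · simp [Complex.exp_ofReal_mul_I_re, Complex.exp_ofReal_mul_I_im]
    rw [e1] at hder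
    have d1 : HasDerivAt (fun s => (γ s).re) (ρ t * -Real.sin t) t :=
      Complex.reCLM.hasFDerivAt.comp_hasDerivAt t hder
    have d2 : HasDerivAt (fun s => (γ s).im) (ρ t * Real.cos t) t :=
      Complex.imCLM.hasFDerivAt.comp_hasDerivAt t hder
    have d3 : HasDerivAt (fun s : ℝ => P s) (((ρ t * -Real.sin t : ℝ)) : ℂ) t := by
      refine (d1.ofReal_comp).congr_of_eventuallyEq ?_
      filter_upwards [hnear] with u hu
      exact hPr u hu
    have d4 : HasDerivAt (fun s : ℝ => Q s) (((ρ t * Real.cos t : ℝ)) : ℂ) t := by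
      refine (d2.ofReal_comp).congr_of_eventuallyEq ?_
      filter_upwards [hnear] with u hu
      exact hQr u hu
    have d5 : HasDerivAt (fun s : ℝ => P s) (deriv P t) t :=
      ((hP'.differentiableAt (hopen.mem_nhds ht)).hasDerivAt).comp_ofReal
    have d6 : HasDerivAt (fun s : ℝ => Q s) (deriv Q t) t :=
      ((hQ'.differentiableAt (hopen.mem_nhds ht)).hasDerivAt).comp_ofReal
    refine ⟨?_, ?_⟩
    · rw [d5.unique d3]
      push_cast
      ring
    · rw [d6.unique d4]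
      push_cast
      ring
  -- the complexified radius of curvature
  set R : ℂ → ℂ := fun z => -(Complex.sin z) * deriv P z + Complex.cos z * deriv Q z with hR
  have hRd : DifferentiableOn ℂ R (Metric.ball (s0 : ℂ) r) :=
    ((Complex.differentiable_sin.differentiableOn.neg).mul hdP).add
      (Complex.differentiable_cos.differentiableOn.mul hdQ)
  have hRr : ∀ t : ℝ, (t : ℂ) ∈ Metric.ball (s0 : ℂ) r → R t = ρ t := by
    intro t ht
    obtain ⟨h1, h2⟩ := hreal t ht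
    simp only [hR]
    rw [h1, h2]
    linear_combination (ρ t : ℂ) * (Complex.sin_sq_add_cos_sq (t : ℂ))
  have hid : ∀ (F : ℂ → ℂ), DifferentiableOn ℂ F (Metric.ball (s0 : ℂ) r) →
      (∀ t : ℝ, (t : ℂ) ∈ Metric.ball (s0 : ℂ) r → F t = 0) →
      ∀ z ∈ Metric.ball (s0 : ℂ) r, F z = 0 := by
    intro F hF h0 z hz
    have hb : ∀ᶠ t : ℝ in 𝓝 s0, (t : ℂ) ∈ Metric.ball (s0 : ℂ) r :=
      Complex.continuous_ofReal.continuousAt.preimage_mem_nhds
        (hopen.mem_nhds (Metric.mem_ball_self hrp))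
    exact (hF.analyticOnNhd hopen).eqOn_zero_of_preconnected_of_frequently_eq_zero
      (convex_ball (s0 : ℂ) r).isPreconnected (Metric.mem_ball_self hrp)
      (AAY_freq (hb.mono fun t ht => h0 t ht)) hz
  have hPQ : ∀ z ∈ Metric.ball (s0 : ℂ) r, HasDerivAt P (-(R z * Complex.sin z)) z ∧
      HasDerivAt Q (R z * Complex.cos z) z := by
    intro z hz
    have h1 := hid (fun z => deriv P z + R z * Complex.sin z)
      (hdP.add (hRd.mul Complex.differentiable_sin.differentiableOn)) (fun t ht => by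
        show deriv P t + R t * Complex.sin t = 0
        rw [hRr t ht, (hreal t ht).1]
        ring) z hz
    have h2 := hid (fun z => deriv Q z - R z * Complex.cos z)
      (hdQ.sub (hRd.mul Complex.differentiable_cos.differentiableOn)) (fun t ht => by
        show deriv Q t - R t * Complex.cos t = 0
        rw [hRr t ht, (hreal t ht).2]
        ring) z hz
    have h1' : deriv P z = -(R z * Complex.sin z) := by linear_combination h1
    have h2' : deriv Q z = R z * Complex.cos z := by linear_combination h2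
    rw [← h1', ← h2']
    exact ⟨(hP'.differentiableAt (hopen.mem_nhds hz)).hasDerivAt,
      (hQ'.differentiableAt (hopen.mem_nhds hz)).hasDerivAt⟩
  obtain ⟨x, hx, hsx, hcx⟩ := OFO_real s0 r hrp
  have hxb : (x : ℂ) ∈ Metric.ball (s0 : ℂ) r := re_mem.2 hx
  have hst := ost γ ρ ho K U hK R P Q s0 r hrp hRd hRr hPQ x hxb
  have hG : GO P Q x := ⟨hst.1 hsx, hst.2 hcx⟩
  obtain ⟨g1, g2, g3⟩ := hG.ne
  have hd2P := hdP.deriv hopen
  have hd2Q := hdQ.deriv hopen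
  have hf : ContinuousOn (fun t => deriv P t * deriv Q t * Wr P Q t)
      (Metric.ball (s0 : ℂ) r) :=
    ((hdP.mul hdQ).mul ((hdP.mul hd2Q).sub (hd2P.mul hdQ))).continuousOn
  have hU : IsOpen {t ∈ Metric.ball (s0 : ℂ) r |
      (fun t => deriv P t * deriv Q t * Wr P Q t) t ≠ 0} :=
    hf.isOpen_inter_preimage hopen isOpen_compl_singleton
  obtain ⟨δ, hδ, hsub⟩ := Metric.isOpen_iff.1 hU (x : ℂ)
    ⟨hxb, mul_ne_zero (mul_ne_zero g1 g2) g3⟩
  have hs' : Metric.ball (x : ℂ) δ ⊆ Metric.ball (s0 : ℂ) r := fun t ht => (hsub ht).1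
  refine ⟨x, P, Q, δ, hδ, hP'.mono hs', hQ'.mono hs', fun t ht => ⟨hPr t (hs' ht),
    hQr t (hs' ht)⟩, ?_, hG⟩
  intro t ht
  have h := (hsub ht).2
  simp only [ne_eq, mul_eq_zero, not_or] at h
  exact ⟨h.1.1, h.1.2, h.2⟩

theorem zz (z : ℂ) : (z + (starRingEnd ℂ) z) / 2 = z.re ∧
    (z - (starRingEnd ℂ) z) / (2 * I) = z.im := by
  refine ⟨?_, ?_⟩
  · rw [Complex.add_conj]
    push_cast
    ring
  · rw [Complex.sub_conj]
    have := I_ne_zero
    field_simp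
    push_cast
    ring

/-- outer billiards about smooth algebraic ovals -/
theorem main_oval {γ : ℝ → ℂ} {ρ : ℝ → ℝ} (ho : IsOval γ ρ) (hsm : ContDiff ℝ ∞ γ)
    (A : ℂ[X][Y]) (hA : A ≠ 0) (hAγ : ∀ s : ℝ, A.evalEval ((γ s).re : ℂ) ((γ s).im : ℂ) = 0)
    (hno : ¬ IAs A) {K : ℝ → ℝ → ℝ} {U : Set (ℝ × ℝ)} (hK : OInt γ K U) :
    ∃ (c : ℂ) (a b d : ℝ), 0 < a ∧ 0 < a * d - b ^ 2 ∧
      Set.range γ = {x : ℂ | a * (x.re - c.re) ^ 2 + 2 * b * (x.re - c.re) * (x.im - c.im)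
        + d * (x.im - c.im) ^ 2 = 1} ∧
      ∃ η > 0, ∀ l : ℝ, 1 ≤ l → l < 1 + η → ∃ κ : ℝ, ∀ x y : ℝ,
        a * (x - c.re) ^ 2 + 2 * b * (x - c.re) * (y - c.im) + d * (y - c.im) ^ 2 = l →
          (x, y) ∈ U ∧ K x y = κ := by
  have hA' : ∀ s : ℝ, (sb A).evalEval (γ s) ((starRingEnd ℂ) (γ s)) = 0 := by
    intro s
    rw [sb_eval, (zz (γ s)).1, (zz (γ s)).2]
    exact hAγ s
  obtain ⟨s0, hs0⟩ := tAS2 γ ρ ho (sb A) (sb_ne A hA) hA'
  obtain ⟨x, P, Q, r, hr, hP, hQ, hPQ, hne, hG⟩ := start ho hK hs0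
  have hopen : IsOpen (Metric.ball (x : ℂ) r) := Metric.isOpen_ball
  have hxr : (x : ℂ) ∈ Metric.ball (x : ℂ) r := Metric.mem_ball_self hr
  have hballR : ∀ᶠ t : ℝ in 𝓝 x, (t : ℂ) ∈ Metric.ball (x : ℂ) r :=
    Complex.continuous_ofReal.continuousAt.preimage_mem_nhds (hopen.mem_nhds hxr)
  have hAZW : ∀ t ∈ Metric.ball (x : ℂ) r, A.evalEval (P t) (Q t) = 0 := by
    have h1 := (AAY_diff A hP hQ).analyticOnNhd hopen
    have h2 := h1.eqOn_zero_of_preconnected_of_frequently_eq_zero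
      (convex_ball (x : ℂ) r).isPreconnected hxr (AAY_freq (by
        filter_upwards [hballR] with t ht
        rw [(hPQ t ht).1, (hPQ t ht).2]
        exact hAγ t))
    exact fun t ht => h2 ht
  obtain ⟨q0, q1, q2, q3, q4, q5, hq, hqe⟩ := core A hA hno P Q x r hr hP hQ hne hAZW hG
  obtain ⟨p0, p1, p2, p3, p4, p5, hp, hpe⟩ := quad_change q0 q1 q2 q3 q4 q5 hq
  have hreal : ∀ᶠ t : ℝ in 𝓝 x, p0 * γ t ^ 2 + p1 * γ t * (starRingEnd ℂ) (γ t) +
      p2 * (starRingEnd ℂ) (γ t) ^ 2 + p3 * γ t + p4 * (starRingEnd ℂ) (γ t) + p5 = 0 := by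
    filter_upwards [hballR] with t ht
    rw [hpe, (zz (γ t)).1, (zz (γ t)).2, ← (hPQ t ht).1, ← (hPQ t ht).2]
    exact hqe t ht
  have hall := tAFL tAFR γ ρ ho hsm (sb A) (sb_ne A hA) hA'
    (C (C p0 * X ^ 2 + C p3 * X + C p5) + C (C p1 * X + C p4) * X + C (C p2) * X ^ 2) ⟨x, by
      filter_upwards [hreal] with t ht
      rw [AAY_ev]
      exact ht⟩
  obtain ⟨c, a, b, d, ha, hdet, hrg⟩ := tCEL γ ρ ho p0 p1 p2 p3 p4 p5 hp fun φ => by
    have h := hall φ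
    rw [AAY_ev] at h
    exact h
  exact ⟨c, a, b, d, ha, hdet, hrg, Pool.Agent.W743.BE.ellipse_leaves ho hK ha hdet hrg⟩

end Q100.OA
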